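import Pool.Agent.Q106.UR.Up

/-!
# The probability of few occurrences, for weakly dependent events
-/

set_option autoImplicit false

namespace Pool.Agent.Q106.ZO

open Finset MeasureTheory ProbabilityTheory Filter Pool.Agent.Q120.GM Pool.Agent.Q106.UR

variable {Ω : Type*} [MeasurableSpace Ω] {μ : Measure Ω} [IsProbabilityMeasure μ] {ι κ : Type*} [DecidableEq ι]
  [DecidableEq κ] {p : ι → ℝ} {A : Ω → Set ι}

/-- At most `r` of the sets `T j`, `j ∈ J`, are contained in `A`. -/
def few (A : Ω → Set ι) (J : Finset κ) (T : κ → Finset ι) (r : ℕ) : Set Ω := {ω | (oc A J T ω).card ≤ r}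

/-- The indices whose sets are disjoint from `U`. -/
def far (J : Finset κ) (T : κ → Finset ι) (U : Finset ι) : Finset κ := J.filter (fun l => Disjoint (T l) U)

/-- The indices whose sets meet `U`. -/
def nei (J : Finset κ) (T : κ → Finset ι) (U : Finset ι) : Finset κ := J.filter (fun l => ¬ Disjoint (T l) U)

/-- The mean number of occurrences. -/
noncomputable def mn (p : ι → ℝ) (J : Finset κ) (T : κ → Finset ι) : ℝ := ∑ j ∈ J, pT p (T j)

/-- The dependence is weak. -/
structure Sp (p : ι → ℝ) (J : Finset κ) (T : κ → Finset ι) (K η : ℝ) : Prop where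
  ne : ∀ i ∈ J, (T i).Nonempty
  nbr : ∀ i ∈ J, ((nei J T (T i)).card : ℝ) ≤ K
  one : ∀ i ∈ J, pT p (T i) ≤ η
  two : ∀ i ∈ J, ∀ l ∈ J, i ≠ l → ¬ Disjoint (T i) (T l) → pT p (T i ∪ T l) ≤ pT p (T i) * η

theorem mem_far {J : Finset κ} {T : κ → Finset ι} {U : Finset ι} {l : κ} :
    l ∈ far J T U ↔ l ∈ J ∧ Disjoint (T l) U := by unfold far; rw [mem_filter]

theorem mem_nei {J : Finset κ} {T : κ → Finset ι} {U : Finset ι} {l : κ} :
    l ∈ nei J T U ↔ l ∈ J ∧ ¬ Disjoint (T l) U := by unfold nei; rw [mem_filter]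

theorem far_sub (J : Finset κ) (T : κ → Finset ι) (U : Finset ι) : far J T U ⊆ J := filter_subset _ _

theorem mn_nonneg (hA : IsModel μ p A) (J : Finset κ) (T : κ → Finset ι) : 0 ≤ mn p J T :=
  sum_nonneg (fun _ _ => pT_nonneg hA _)

theorem mn_mono (hA : IsModel μ p A) {J J' : Finset κ} (h : J' ⊆ J) (T : κ → Finset ι) : mn p J' T ≤ mn p J T :=
  sum_le_sum_of_subset_of_nonneg h (fun _ _ _ => pT_nonneg hA _)

theorem mn_far (hA : IsModel μ p A) (J : Finset κ) (T : κ → Finset ι) (U : Finset ι) {R : ℝ}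
    (h : ((nei J T U).card : ℝ) ≤ R) : mn p J T - R ≤ mn p (far J T U) T := by
  have h1 : mn p J T = mn p (far J T U) T + mn p (nei J T U) T := by
    unfold mn far nei
    rw [sum_filter_add_sum_filter_not]
  have h2 : mn p (nei J T U) T ≤ (nei J T U).card := by
    unfold mn
    refine (sum_le_sum (g := fun _ => (1 : ℝ)) (fun j _ => pT_le_one hA _)).trans (by simp)
  linarith

theorem nei_two {J : Finset κ} {T : κ → Finset ι} {K η : ℝ} (hS : Sp p J T K η) {i l : κ} (hi : i ∈ J) (hl : l ∈ J) :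
    ((nei J T (T i ∪ T l)).card : ℝ) ≤ 2 * K := by
  have h1 : nei J T (T i ∪ T l) ⊆ nei J T (T i) ∪ nei J T (T l) := by
    intro m hm
    rw [mem_nei, disjoint_union_right, not_and_or] at hm
    rw [mem_union, mem_nei, mem_nei]
    rcases hm with ⟨hm, h | h⟩
    · exact Or.inl ⟨hm, h⟩
    · exact Or.inr ⟨hm, h⟩
  have h2 : (nei J T (T i ∪ T l)).card ≤ (nei J T (T i)).card + (nei J T (T l)).card :=
    (card_le_card h1).trans (card_union_le _ _)
  have h3 : ((nei J T (T i ∪ T l)).card : ℝ) ≤ (nei J T (T i)).card + (nei J T (T l)).card := by exact_mod_cast h2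
  have := hS.nbr i hi
  have := hS.nbr l hl
  linarith

theorem Sp.sub {J J' : Finset κ} {T : κ → Finset ι} {K η : ℝ} (hS : Sp p J T K η) (h : J' ⊆ J) : Sp p J' T K η where
  ne := fun i hi => hS.ne i (h hi)
  nbr := fun i hi => by
    refine le_trans ?_ (hS.nbr i (h hi))
    exact_mod_cast card_le_card (fun l hl => mem_nei.2 ⟨h (mem_nei.1 hl).1, (mem_nei.1 hl).2⟩)
  one := fun i hi => hS.one i (h hi)
  two := fun i hi l hl => hS.two i (h hi) l (h hl)

omit [MeasurableSpace Ω] [DecidableEq ι] [DecidableEq κ] in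
theorem oc_mono {J J' : Finset κ} (h : J' ⊆ J) (T : κ → Finset ι) (ω : Ω) : oc A J' T ω ⊆ oc A J T ω := by
  intro j hj
  rw [mem_oc] at hj ⊢
  exact ⟨h hj.1, hj.2⟩

omit [MeasurableSpace Ω] [DecidableEq ι] [DecidableEq κ] in
theorem few_anti {J J' : Finset κ} (h : J' ⊆ J) (T : κ → Finset ι) (r : ℕ) : few A J T r ⊆ few A J' T r :=
  fun ω hω => (card_le_card (oc_mono h T ω)).trans hω

omit [MeasurableSpace Ω] [DecidableEq ι] [DecidableEq κ] in
theorem few_mono (J : Finset κ) (T : κ → Finset ι) {r s : ℕ} (h : r ≤ s) : few A J T r ⊆ few A J T s :=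
  fun _ hω => le_trans hω h

omit [MeasurableSpace Ω] [DecidableEq ι] [DecidableEq κ] in
theorem few_zero (J : Finset κ) (T : κ → Finset ι) : few A J T 0 = none A J T := by
  ext ω
  show (oc A J T ω).card ≤ 0 ↔ ∀ j ∈ J, ω ∉ all A (T j)
  rw [Nat.le_zero, card_eq_zero, eq_empty_iff_forall_notMem]
  constructor
  · intro h j hj hω
    exact h j (mem_oc.2 ⟨hj, hω⟩)
  · intro h j hj
    rw [mem_oc] at hj
    exact h j hj.1 hj.2

omit [MeasurableSpace Ω] [DecidableEq ι] [DecidableEq κ] in
theorem F_few {S : Set ι} {J : Finset κ} {T : κ → Finset ι} (hT : ∀ j ∈ J, ∀ i ∈ T j, i ∈ S) (r : ℕ) :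
    MeasurableSet[F A S] (few A J T r) := by
  have h1 : few A J T r = {ω | nm A J T ω ≤ r} := by
    ext ω
    show (oc A J T ω).card ≤ r ↔ nm A J T ω ≤ r
    rw [nm_card]
    exact_mod_cast Iff.rfl
  rw [h1]
  letI : MeasurableSpace Ω := F A S
  have h2 : Measurable (nm A J T) := by
    unfold nm
    exact Finset.measurable_fun_sum J (fun j hj => F_ind (hT j hj))
  exact h2 measurableSet_Iic

omit [DecidableEq ι] [DecidableEq κ] in
theorem meas_few (hA : IsModel μ p A) (J : Finset κ) (T : κ → Finset ι) (r : ℕ) : MeasurableSet (few A J T r) :=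
  F_le hA Set.univ _ (F_few (fun _ _ _ _ => Set.mem_univ _) r)

theorem indep_far (hA : IsModel μ p A) (J : Finset κ) (T : κ → Finset ι) {U V : Finset ι} (hUV : V ⊆ U) (r : ℕ) :
    μ.real (all A V ∩ few A (far J T U) T r) = pT p V * μ.real (few A (far J T U) T r) := by
  rw [indep_real hA (S := (↑V : Set ι)) (T := (↑V : Set ι)ᶜ) disjoint_compl_right (F_all (fun i hi => hi))
    (F_few (fun j hj i hi => ?_) r), real_all hA]
  · rfl
  · intro hV
    exact Finset.disjoint_left.1 (mem_far.1 hj).2 hi (hUV hV)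

/-- The constants of the upper bound. -/
noncomputable def Cu (K : ℝ) : ℕ → ℝ
  | 0 => 1
  | r + 1 => 1 + Cu K r * Real.exp K

theorem Cu_pos (K : ℝ) (r : ℕ) : 1 ≤ Cu K r := by
  induction r with
  | zero => exact le_refl _
  | succ r ih =>
    have : 0 < Cu K r * Real.exp K := by positivity
    show 1 ≤ 1 + Cu K r * Real.exp K
    linarith

theorem Cu_mono {K : ℝ} (hK : 0 ≤ K) (r : ℕ) : Cu K r ≤ Cu K (r + 1) := by
  show Cu K r ≤ 1 + Cu K r * Real.exp K
  have h1 := Cu_pos K r
  have h2 := Real.one_le_exp hK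
  nlinarith

/-- **The upper bound.** -/
theorem few_up (hA : IsModel μ p A) {J₀ : Finset κ} {T : κ → Finset ι} {K η D : ℝ} (hS : Sp p J₀ T K η)
    (hD : ∑ e ∈ cf J₀ T, pT p (T e.1 ∪ T e.2) ≤ D) (r : ℕ) : ∀ J ⊆ J₀,
    μ.real (few A J T r) ≤ Cu K r * Real.exp (D - mn p J T) * (1 + mn p J T) ^ r := by
  induction r with
  | zero =>
    intro J hJ
    rw [few_zero, pow_zero, mul_one]
    refine (janson' hA J T).trans ?_
    show Real.exp (-mn p J T + _) ≤ 1 * _
    rw [one_mul]
    refine Real.exp_le_exp.2 ?_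
    have := (sum_le_sum_of_subset_of_nonneg (cf_mono hJ T) (fun e _ _ => pT_nonneg hA (T e.1 ∪ T e.2))).trans hD
    linarith
  | succ r ih =>
    intro J hJ
    have hE := mn_nonneg hA J T
    have h0 : μ.real (none A J T) ≤ Real.exp (D - mn p J T) := by
      refine (janson' hA J T).trans ?_
      show Real.exp (-mn p J T + _) ≤ _
      refine Real.exp_le_exp.2 ?_
      have := (sum_le_sum_of_subset_of_nonneg (cf_mono hJ T) (fun e _ _ => pT_nonneg hA (T e.1 ∪ T e.2))).trans hD
      linarith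
    have hcov : few A J T (r + 1) ⊆ none A J T ∪ ⋃ i ∈ J, (all A (T i) ∩ few A (far J T (T i)) T r) := by
      intro ω hω
      by_cases hn : ω ∈ none A J T
      · exact Or.inl hn
      · right
        have hn' : ¬ ∀ j ∈ J, ω ∉ all A (T j) := hn
        push Not at hn'
        obtain ⟨i, hi, hωi⟩ := hn'
        rw [Set.mem_iUnion₂]
        refine ⟨i, hi, hωi, ?_⟩
        show (oc A (far J T (T i)) T ω).card ≤ r
        have h1 : i ∈ oc A J T ω := mem_oc.2 ⟨hi, hωi⟩
        have h2 : oc A (far J T (T i)) T ω ⊆ (oc A J T ω).erase i := by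
          intro l hl
          rw [mem_erase]
          refine ⟨?_, oc_mono (far_sub J T (T i)) T ω hl⟩
          rintro rfl
          have h3 := (mem_far.1 (mem_oc.1 hl).1).2
          rw [disjoint_self] at h3
          exact (hS.ne l (hJ hi)).ne_empty h3
        have h3 := card_le_card h2
        rw [card_erase_of_mem h1] at h3
        have h4 : (oc A J T ω).card ≤ r + 1 := hω
        omega
    have h1 : μ.real (few A J T (r + 1)) ≤ μ.real (none A J T) +
        ∑ i ∈ J, μ.real (all A (T i) ∩ few A (far J T (T i)) T r) := by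
      refine (measureReal_mono hcov (measure_ne_top _ _)).trans ((measureReal_union_le _ _).trans ?_)
      exact add_le_add le_rfl (measureReal_biUnion_finset_le _ _)
    have h2 : ∀ i ∈ J, μ.real (all A (T i) ∩ few A (far J T (T i)) T r) ≤
        pT p (T i) * (Cu K r * Real.exp K * Real.exp (D - mn p J T) * (1 + mn p J T) ^ r) := by
      intro i hi
      rw [indep_far hA J T (subset_refl _) r]
      refine mul_le_mul_of_nonneg_left ?_ (pT_nonneg hA _)
      refine (ih _ ((far_sub J T (T i)).trans hJ)).trans ?_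
      have e1 := mn_far hA J T (T i) ((hS.sub hJ).nbr i hi)
      have e2 := mn_mono hA (far_sub J T (T i)) T
      have e3 := mn_nonneg hA (far J T (T i)) T
      have e4 : Real.exp (D - mn p (far J T (T i)) T) ≤ Real.exp K * Real.exp (D - mn p J T) := by
        rw [← Real.exp_add]
        exact Real.exp_le_exp.2 (by linarith)
      have e5 : (1 + mn p (far J T (T i)) T) ^ r ≤ (1 + mn p J T) ^ r :=
        pow_le_pow_left₀ (by linarith) (by linarith) r
      have e6 := Cu_pos K r
      calc Cu K r * Real.exp (D - mn p (far J T (T i)) T) * (1 + mn p (far J T (T i)) T) ^ r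
          ≤ Cu K r * (Real.exp K * Real.exp (D - mn p J T)) * (1 + mn p J T) ^ r := by
            refine mul_le_mul (mul_le_mul_of_nonneg_left e4 (by linarith)) e5 (by positivity) (by positivity)
        _ = _ := by ring
    have h3 : ∑ i ∈ J, μ.real (all A (T i) ∩ few A (far J T (T i)) T r) ≤
        mn p J T * (Cu K r * Real.exp K * Real.exp (D - mn p J T) * (1 + mn p J T) ^ r) := by
      refine (sum_le_sum h2).trans ?_
      rw [← sum_mul]
      exact le_refl _
    refine h1.trans ((add_le_add h0 h3).trans ?_)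
    show _ ≤ (1 + Cu K r * Real.exp K) * Real.exp (D - mn p J T) * (1 + mn p J T) ^ (r + 1)
    have e1 : (1 : ℝ) ≤ (1 + mn p J T) ^ (r + 1) := one_le_pow₀ (by linarith)
    have e2 : mn p J T * (1 + mn p J T) ^ r ≤ (1 + mn p J T) ^ (r + 1) := by
      rw [pow_succ]
      have : 0 ≤ (1 + mn p J T) ^ r := by positivity
      nlinarith
    have e3 := Real.exp_pos (D - mn p J T)
    have e4 : 0 ≤ Cu K r * Real.exp K := by
      have := Cu_pos K r
      positivity
    have f1 := mul_le_mul_of_nonneg_left e1 e3.le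
    have f2 := mul_le_mul_of_nonneg_left e2 (mul_nonneg e4 e3.le)
    calc Real.exp (D - mn p J T) + mn p J T * (Cu K r * Real.exp K * Real.exp (D - mn p J T) * (1 + mn p J T) ^ r)
        = Real.exp (D - mn p J T) * 1 + Cu K r * Real.exp K * Real.exp (D - mn p J T) * (mn p J T * (1 + mn p J T) ^ r) := by
          ring
      _ ≤ Real.exp (D - mn p J T) * (1 + mn p J T) ^ (r + 1) +
          Cu K r * Real.exp K * Real.exp (D - mn p J T) * (1 + mn p J T) ^ (r + 1) := add_le_add f1 f2
      _ = _ := by ring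

end Pool.Agent.Q106.ZO
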