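import Pool.Agent.Q106.ZO.Law
import Pool.Agent.Q106.LF.Basic
import Pool.Agent.Q106.UR.Mean2

/-!
# Systems of linear forms with values in disjoint sets
-/

set_option autoImplicit false

namespace Pool.Agent.Q106.ZO

open Finset MeasureTheory ProbabilityTheory Filter Pool.Agent.Q120.GM Pool.Agent.Q106.UR Pool.Agent.Q106.LF
open scoped Topology

/-- The arguments at which all forms take values in `B`. -/
def arg (F : Finset (ℕ × ℕ)) (B : Finset ℕ) : Finset ℕ :=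
  (range (B.sup id + 1)).filter (fun m => ∀ f ∈ F, f.1 * m + f.2 ∈ B)

theorem mem_arg {F : Finset (ℕ × ℕ)} (hF : F.Nonempty) (ha : ∀ f ∈ F, 1 ≤ f.1) {B : Finset ℕ} {m : ℕ} :
    m ∈ arg F B ↔ ∀ f ∈ F, f.1 * m + f.2 ∈ B := by
  unfold arg
  rw [mem_filter, mem_range]
  refine ⟨fun h => h.2, fun h => ⟨?_, h⟩⟩
  obtain ⟨f, hf⟩ := hF
  have h1 : f.1 * m + f.2 ≤ B.sup id := Finset.le_sup (f := id) (h f hf)
  have h2 : m ≤ f.1 * m := Nat.le_mul_of_pos_left m (ha f hf)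
  omega

theorem vals_nonempty {F : Finset (ℕ × ℕ)} (hF : F.Nonempty) (m : ℕ) : (vals F m).Nonempty := hF.image _

theorem le_vals {F : Finset (ℕ × ℕ)} (ha : ∀ f ∈ F, 1 ≤ f.1) {m v : ℕ} (hv : v ∈ vals F m) : m ≤ v := by
  obtain ⟨f, hf, rfl⟩ := mem_vals.1 hv
  have h2 : m ≤ f.1 * m := Nat.le_mul_of_pos_left m (ha f hf)
  omega

theorem pT_le_pow {Q : ℕ} {U : Finset ℕ} {x : ℝ} (hx : 0 < Real.log x) (hx0 : 0 < x) (hU : ∀ u ∈ U, x ≤ u) {s : ℕ}
    (hs : s ≤ U.card) : pT (level Q) U ≤ (qq Q / Real.log x) ^ s := by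
  obtain ⟨V, hV, hc⟩ := exists_subset_card_eq hs
  refine (pT_mono Q hV).trans ?_
  unfold pT
  rw [← hc, ← prod_const]
  exact prod_le_prod (fun u _ => level_nonneg Q u) (fun u hu => level_le hx hx0 (hU u (hV hu)))

theorem nei_card (F : Finset (ℕ × ℕ)) (ha : ∀ f ∈ F, 1 ≤ f.1) (J : Finset ℕ) (i : ℕ) :
    ((nei J (vals F) (vals F i)).card : ℝ) ≤ (F.card : ℝ) ^ 2 + 1 := by
  have h1 : nei J (vals F) (vals F i) ⊆ insert i (J.filter (fun j => i ≠ j ∧ ¬ Disjoint (vals F i) (vals F j))) := by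
    intro l hl
    rw [mem_nei] at hl
    rw [mem_insert, mem_filter]
    by_cases h : l = i
    · exact Or.inl h
    · exact Or.inr ⟨hl.1, Ne.symm h, fun hd => hl.2 hd.symm⟩
  have h2 := (card_le_card h1).trans (card_insert_le _ _)
  have h3 := confF_card F ha J i
  have h4 : (nei J (vals F) (vals F i)).card ≤ F.card ^ 2 + 1 := by omega
  exact_mod_cast h4

theorem sp_one {Q : ℕ} {F : Finset (ℕ × ℕ)} (hF : F.Nonempty) (ha : ∀ f ∈ F, 1 ≤ f.1) {J : Finset ℕ} {m : ℕ}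
    (hm : ∀ j ∈ J, m ≤ j) (hm2 : 2 ≤ m) :
    Sp (level Q) J (vals F) ((F.card : ℝ) ^ 2 + 1) ((qq Q / Real.log m) ^ 1) := by
  have hm2' : (2 : ℝ) ≤ m := by exact_mod_cast hm2
  have hl : 0 < Real.log (m : ℝ) := Real.log_pos (by linarith)
  refine ⟨fun i _ => vals_nonempty hF i, fun i _ => nei_card F ha J i, fun i hi => ?_, fun i hi l hl' hil _ => ?_⟩
  · refine pT_le_pow hl (by linarith) (fun u hu => ?_) (vals_nonempty hF i).card_pos
    exact_mod_cast (hm i hi).trans (le_vals ha hu)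
  · rw [pow_one]
    exact pairF_le hF ha hil hl (by linarith) (by exact_mod_cast hm l hl')

theorem sp_two {Q : ℕ} {F : Finset (ℕ × ℕ)} (hF : F.Nonempty) (ha : ∀ f ∈ F, 1 ≤ f.1)
    (hov : ∀ i j, i ≠ j → 2 ≤ (vals F j \ vals F i).card) {J : Finset ℕ} {m : ℕ}
    (hm : ∀ j ∈ J, m ≤ j) (hm2 : 2 ≤ m) :
    Sp (level Q) J (vals F) ((F.card : ℝ) ^ 2 + 1) ((qq Q / Real.log m) ^ 2) := by
  have hm2' : (2 : ℝ) ≤ m := by exact_mod_cast hm2
  have hl : 0 < Real.log (m : ℝ) := Real.log_pos (by linarith)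
  refine ⟨fun i _ => vals_nonempty hF i, fun i _ => nei_card F ha J i, fun i hi => ?_, fun i hi l hl' hil _ => ?_⟩
  · refine pT_le_pow hl (by linarith) (fun u hu => ?_) ?_
    · exact_mod_cast (hm i hi).trans (le_vals ha hu)
    · exact (hov (i + 1) i (by omega)).trans (card_le_card sdiff_subset)
  · unfold pT
    rw [← union_sdiff_self_eq_union, prod_union (disjoint_sdiff)]
    refine mul_le_mul_of_nonneg_left ?_ (prod_nonneg (fun v _ => level_nonneg Q v))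
    refine pT_le_pow hl (by linarith) (fun u hu => ?_) (hov i l hil)
    exact_mod_cast (hm l hl').trans (le_vals ha (Finset.mem_sdiff.1 hu).1)

/-- The least argument. -/
noncomputable def mi (F : Finset (ℕ × ℕ)) (B : ℕ → Finset ℕ) (n : ℕ) : ℕ := sInf (↑(arg F (B n)) : Set ℕ)

theorem mi_mem {F : Finset (ℕ × ℕ)} {B : ℕ → Finset ℕ} {n : ℕ} (h : (arg F (B n)).Nonempty) :
    mi F B n ∈ arg F (B n) := by
  have := Nat.sInf_mem (s := (↑(arg F (B n)) : Set ℕ)) (by exact_mod_cast h)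
  exact_mod_cast this

theorem mi_le {F : Finset (ℕ × ℕ)} {B : ℕ → Finset ℕ} {n j : ℕ} (h : j ∈ arg F (B n)) : mi F B n ≤ j :=
  Nat.sInf_le (by exact_mod_cast h)

theorem arg_disj {F : Finset (ℕ × ℕ)} (hF : F.Nonempty) (ha : ∀ f ∈ F, 1 ≤ f.1) {B : ℕ → Finset ℕ}
    (hB : ∀ i j, i ≠ j → Disjoint (B i) (B j)) (i j : ℕ) (hij : i ≠ j) :
    ∀ a ∈ arg F (B i), ∀ b ∈ arg F (B j), Disjoint (vals F a) (vals F b) := by
  intro a ha' b hb'
  rw [Finset.disjoint_left]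
  intro v hv hv'
  obtain ⟨f, hf, rfl⟩ := mem_vals.1 hv
  obtain ⟨g, hg, e⟩ := mem_vals.1 hv'
  have h1 := (mem_arg hF ha).1 ha' f hf
  have h2 := (mem_arg hF ha).1 hb' g hg
  rw [← e] at h2
  exact Finset.disjoint_left.1 (hB i j hij) h1 h2

theorem sq_one {Q : ℕ} {F : Finset (ℕ × ℕ)} (hF : F.Nonempty) (ha : ∀ f ∈ F, 1 ≤ f.1) {B : ℕ → Finset ℕ}
    (hB : ∀ i j, i ≠ j → Disjoint (B i) (B j)) :
    Sq (level Q) (vals F) ((F.card : ℝ) ^ 2 + 1) (qq Q) 1 (fun n => arg F (B n)) (mi F B) where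
  disj := arg_disj hF ha hB
  ne := vals_nonempty hF
  mem := fun _ h => mi_mem h
  sp := fun _ _ h2 => sp_one hF ha (fun _ hj => mi_le hj) h2

theorem sq_two {Q : ℕ} {F : Finset (ℕ × ℕ)} (hF : F.Nonempty) (ha : ∀ f ∈ F, 1 ≤ f.1) {B : ℕ → Finset ℕ}
    (hov : ∀ i j, i ≠ j → 2 ≤ (vals F j \ vals F i).card) (hB : ∀ i j, i ≠ j → Disjoint (B i) (B j)) :
    Sq (level Q) (vals F) ((F.card : ℝ) ^ 2 + 1) (qq Q) 2 (fun n => arg F (B n)) (mi F B) where
  disj := arg_disj hF ha hB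
  ne := vals_nonempty hF
  mem := fun _ h => mi_mem h
  sp := fun _ _ h2 => sp_two hF ha hov (fun _ hj => mi_le hj) h2

end Pool.Agent.Q106.ZO
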