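import Pool.Agent.Q106.ZO.Few

/-!
# The probability of few occurrences: the Poisson law with relative error
-/

set_option autoImplicit false

namespace Pool.Agent.Q106.ZO

open Finset MeasureTheory ProbabilityTheory Filter Pool.Agent.Q120.GM Pool.Agent.Q106.UR

variable {Ω : Type*} [MeasurableSpace Ω] {μ : Measure Ω} [IsProbabilityMeasure μ] {ι κ : Type*} [DecidableEq ι]
  [DecidableEq κ] {p : ι → ℝ} {A : Ω → Set ι}

/-- Exactly `r` occurrences. -/
def exa (A : Ω → Set ι) (J : Finset κ) (T : κ → Finset ι) (r : ℕ) : Set Ω := {ω | (oc A J T ω).card = r}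

omit [MeasurableSpace Ω] [DecidableEq ι] [DecidableEq κ] in
theorem few_succ (J : Finset κ) (T : κ → Finset ι) (r : ℕ) : few A J T (r + 1) = few A J T r ∪ exa A J T (r + 1) := by
  ext ω
  show (oc A J T ω).card ≤ r + 1 ↔ (oc A J T ω).card ≤ r ∨ (oc A J T ω).card = r + 1
  omega

omit [MeasurableSpace Ω] [DecidableEq ι] [DecidableEq κ] in
theorem few_disj (J : Finset κ) (T : κ → Finset ι) (r : ℕ) : Disjoint (few A J T r) (exa A J T (r + 1)) := by
  rw [Set.disjoint_left]
  intro ω h1 h2
  have h1' : (oc A J T ω).card ≤ r := h1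
  have h2' : (oc A J T ω).card = r + 1 := h2
  omega

omit [DecidableEq ι] [DecidableEq κ] in
theorem meas_exa (hA : IsModel μ p A) (J : Finset κ) (T : κ → Finset ι) (r : ℕ) : MeasurableSet (exa A J T r) := by
  have h1 : exa A J T r = {ω | nm A J T ω = r} := by
    ext ω
    show (oc A J T ω).card = r ↔ nm A J T ω = r
    rw [nm_card]
    exact_mod_cast Iff.rfl
  rw [h1]
  exact (meas_nm hA J T) (measurableSet_singleton _)

omit [DecidableEq ι] [DecidableEq κ] in
theorem real_few_succ (hA : IsModel μ p A) (J : Finset κ) (T : κ → Finset ι) (r : ℕ) :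
    μ.real (few A J T (r + 1)) = μ.real (few A J T r) + μ.real (exa A J T (r + 1)) := by
  rw [few_succ, measureReal_union (few_disj J T r) (meas_exa hA J T _)]

omit [DecidableEq ι] [DecidableEq κ] in
theorem all_few_succ (hA : IsModel μ p A) (J : Finset κ) (T : κ → Finset ι) (i : κ) (r : ℕ) :
    μ.real (all A (T i) ∩ few A J T (r + 1)) = μ.real (all A (T i) ∩ few A J T r) + μ.real (all A (T i) ∩ exa A J T (r + 1)) := by
  rw [few_succ, Set.inter_union_distrib_left, measureReal_union _ ((meas_all hA _).inter (meas_exa hA J T _))]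
  exact (few_disj J T r).mono Set.inter_subset_right Set.inter_subset_right

omit [DecidableEq ι] [DecidableEq κ] in
/-- Double counting. -/
theorem sum_exa (hA : IsModel μ p A) (J : Finset κ) (T : κ → Finset ι) (r : ℕ) :
    ∑ i ∈ J, μ.real (all A (T i) ∩ exa A J T r) = r * μ.real (exa A J T r) := by
  have h1 : ∀ i ∈ J, μ.real (all A (T i) ∩ exa A J T r) =
      ∫ ω, (all A (T i) ∩ exa A J T r).indicator (fun _ => (1 : ℝ)) ω ∂μ := by
    intro i _
    rw [integral_indicator_const _ ((meas_all hA _).inter (meas_exa hA J T r))]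
    simp
  rw [sum_congr rfl h1, ← integral_finsetSum]
  · have h2 : ∀ ω, ∑ i ∈ J, (all A (T i) ∩ exa A J T r).indicator (fun _ => (1 : ℝ)) ω =
        (exa A J T r).indicator (fun _ => (r : ℝ)) ω := by
      intro ω
      by_cases hω : ω ∈ exa A J T r
      · rw [Set.indicator_of_mem hω]
        have h3 : ∀ i ∈ J, (all A (T i) ∩ exa A J T r).indicator (fun _ => (1 : ℝ)) ω = ind A (T i) ω := by
          intro i _
          unfold ind
          by_cases hi : ω ∈ all A (T i)
          · rw [Set.indicator_of_mem (show ω ∈ all A (T i) ∩ exa A J T r from ⟨hi, hω⟩), Set.indicator_of_mem hi]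
          · rw [Set.indicator_of_notMem (fun h => hi h.1), Set.indicator_of_notMem hi]
        rw [sum_congr rfl h3]
        show nm A J T ω = r
        rw [nm_card]
        have : (oc A J T ω).card = r := hω
        exact_mod_cast this
      · rw [Set.indicator_of_notMem hω]
        exact sum_eq_zero (fun i _ => Set.indicator_of_notMem (fun h => hω h.2) _)
    simp_rw [h2]
    rw [integral_indicator_const _ (meas_exa hA J T r)]
    simp [mul_comm]
  · intro i _
    exact (integrable_const 1).indicator ((meas_all hA _).inter (meas_exa hA J T r))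

/-- The error term. -/
noncomputable def er (K η D E : ℝ) (r : ℕ) : ℝ := K * η * Cu K r * Real.exp (D - E + 2 * K) * (1 + E) ^ r

theorem er_nonneg {K η D E : ℝ} (hK : 0 ≤ K) (hη : 0 ≤ η) (hE : 0 ≤ E) (r : ℕ) : 0 ≤ er K η D E r := by
  have := Cu_pos K r
  unfold er
  positivity

theorem er_mono {K η D E : ℝ} (hK : 0 ≤ K) (hη : 0 ≤ η) (hE : 0 ≤ E) (r : ℕ) : er K η D E r ≤ er K η D E (r + 1) := by
  have h1 := Cu_pos K r
  have h2 := Cu_mono hK r
  have h3 : (1 + E) ^ r ≤ (1 + E) ^ (r + 1) := pow_le_pow_right₀ (by linarith) (by omega)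
  unfold er
  have h4 := Real.exp_pos (D - E + 2 * K)
  refine mul_le_mul ?_ h3 (by positivity) ?_
  · exact mul_le_mul_of_nonneg_right (mul_le_mul_of_nonneg_left h2 (by positivity)) h4.le
  · have := Cu_pos K (r + 1)
    positivity

theorem far_two (hA : IsModel μ p A) {J : Finset κ} {T : κ → Finset ι} {K η D : ℝ} (hS : Sp p J T K η)
    (hD : ∑ e ∈ cf J T, pT p (T e.1 ∪ T e.2) ≤ D) (r : ℕ) {i l : κ} (hi : i ∈ J) (hl : l ∈ J) :
    μ.real (few A (far J T (T i ∪ T l)) T r) ≤ Cu K r * Real.exp (D - mn p J T + 2 * K) * (1 + mn p J T) ^ r := by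
  refine (few_up hA hS hD r _ (far_sub J T _)).trans ?_
  have e1 := mn_far hA J T (T i ∪ T l) (nei_two hS hi hl)
  have e2 := mn_mono hA (far_sub J T (T i ∪ T l)) T
  have e3 := mn_nonneg hA (far J T (T i ∪ T l)) T
  have e6 := Cu_pos K r
  refine mul_le_mul (mul_le_mul_of_nonneg_left (Real.exp_le_exp.2 (by linarith)) (by linarith))
    (pow_le_pow_left₀ (by linarith) (by linarith) r) (by positivity) (by positivity)

theorem all_few_le (hA : IsModel μ p A) {J : Finset κ} {T : κ → Finset ι} {K η D : ℝ} (hK : 0 ≤ K) (hη : 0 ≤ η)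
    (hS : Sp p J T K η) (hD : ∑ e ∈ cf J T, pT p (T e.1 ∪ T e.2) ≤ D) (r : ℕ) {i : κ} (hi : i ∈ J) :
    μ.real (all A (T i) ∩ few A J T (r + 1)) ≤ pT p (T i) * (μ.real (few A J T r) + er K η D (mn p J T) r) := by
  have h1 : all A (T i) ∩ few A J T (r + 1) ⊆ all A (T i) ∩ few A (far J T (T i)) T r := by
    rintro ω ⟨hω1, hω2⟩
    refine ⟨hω1, ?_⟩
    show (oc A (far J T (T i)) T ω).card ≤ r
    have h1 : i ∈ oc A J T ω := mem_oc.2 ⟨hi, hω1⟩
    have h2 : oc A (far J T (T i)) T ω ⊆ (oc A J T ω).erase i := by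
      intro l hl
      rw [mem_erase]
      refine ⟨?_, oc_mono (far_sub J T (T i)) T ω hl⟩
      rintro rfl
      have h3 := (mem_far.1 (mem_oc.1 hl).1).2
      rw [disjoint_self] at h3
      exact (hS.ne l hi).ne_empty h3
    have h3 := card_le_card h2
    rw [card_erase_of_mem h1] at h3
    have h4 : (oc A J T ω).card ≤ r + 1 := hω2
    omega
  refine (measureReal_mono h1 (measure_ne_top _ _)).trans ?_
  rw [indep_far hA J T (subset_refl _) r]
  refine mul_le_mul_of_nonneg_left ?_ (pT_nonneg hA _)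
  have h2 : few A (far J T (T i)) T r ⊆ few A J T r ∪
      ⋃ l ∈ nei J T (T i), (all A (T l) ∩ few A (far J T (T i ∪ T l)) T r) := by
    intro ω hω
    by_cases hn : ∀ l ∈ nei J T (T i), ω ∉ all A (T l)
    · left
      show (oc A J T ω).card ≤ r
      refine le_trans (card_le_card ?_) hω
      intro l hl
      rw [mem_oc] at hl ⊢
      refine ⟨mem_far.2 ⟨hl.1, ?_⟩, hl.2⟩
      by_contra hcon
      exact hn l (mem_nei.2 ⟨hl.1, hcon⟩) hl.2
    · right
      push Not at hn
      obtain ⟨l, hl, hωl⟩ := hn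
      rw [Set.mem_iUnion₂]
      refine ⟨l, hl, hωl, few_anti (fun m hm => ?_) T r hω⟩
      rw [mem_far] at hm ⊢
      exact ⟨hm.1, (disjoint_union_right.1 hm.2).1⟩
  refine (measureReal_mono h2 (measure_ne_top _ _)).trans ((measureReal_union_le _ _).trans ?_)
  refine add_le_add le_rfl ((measureReal_biUnion_finset_le _ _).trans ?_)
  have h3 : ∀ l ∈ nei J T (T i), μ.real (all A (T l) ∩ few A (far J T (T i ∪ T l)) T r) ≤
      η * (Cu K r * Real.exp (D - mn p J T + 2 * K) * (1 + mn p J T) ^ r) := by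
    intro l hl
    have hl' := (mem_nei.1 hl).1
    rw [indep_far hA J T subset_union_right r]
    exact mul_le_mul (hS.one l hl') (far_two hA hS hD r hi hl') measureReal_nonneg hη
  refine (sum_le_sum h3).trans ?_
  rw [sum_const, nsmul_eq_mul]
  have h4 := hS.nbr i hi
  have h5 := Cu_pos K r
  have h6 := mn_nonneg hA J T
  refine (mul_le_mul_of_nonneg_right h4 (by positivity)).trans (le_of_eq ?_)
  unfold er
  ring

theorem le_all_few (hA : IsModel μ p A) {J : Finset κ} {T : κ → Finset ι} {K η D : ℝ} (hη : 0 ≤ η)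
    (hS : Sp p J T K η) (hD : ∑ e ∈ cf J T, pT p (T e.1 ∪ T e.2) ≤ D) (r : ℕ) {i : κ} (hi : i ∈ J) :
    pT p (T i) * (μ.real (few A J T r) - er K η D (mn p J T) r) ≤ μ.real (all A (T i) ∩ few A J T (r + 1)) := by
  have h1 : all A (T i) ∩ few A (far J T (T i)) T r ⊆ (all A (T i) ∩ few A J T (r + 1)) ∪
      ⋃ l ∈ (nei J T (T i)).erase i, (all A (T i ∪ T l) ∩ few A (far J T (T i ∪ T l)) T r) := by
    rintro ω ⟨hω1, hω2⟩
    by_cases hn : ∀ l ∈ (nei J T (T i)).erase i, ω ∉ all A (T l)
    · left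
      refine ⟨hω1, ?_⟩
      show (oc A J T ω).card ≤ r + 1
      have h2 : oc A J T ω ⊆ insert i (oc A (far J T (T i)) T ω) := by
        intro l hl
        rw [mem_oc] at hl
        rw [mem_insert]
        by_cases hli : l = i
        · exact Or.inl hli
        · right
          refine mem_oc.2 ⟨mem_far.2 ⟨hl.1, ?_⟩, hl.2⟩
          by_contra hcon
          exact hn l (mem_erase.2 ⟨hli, mem_nei.2 ⟨hl.1, hcon⟩⟩) hl.2
      have h3 := (card_le_card h2).trans (card_insert_le _ _)
      have h4 : (oc A (far J T (T i)) T ω).card ≤ r := hω2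
      omega
    · right
      push Not at hn
      obtain ⟨l, hl, hωl⟩ := hn
      rw [Set.mem_iUnion₂]
      refine ⟨l, hl, ?_, few_anti (fun m hm => ?_) T r hω2⟩
      · intro b hb
        rw [mem_union] at hb
        rcases hb with hb | hb
        · exact hω1 b hb
        · exact hωl b hb
      · rw [mem_far] at hm ⊢
        exact ⟨hm.1, (disjoint_union_right.1 hm.2).1⟩
  have h2 := (measureReal_mono (μ := μ) h1 (measure_ne_top _ _)).trans
    ((measureReal_union_le _ _).trans (add_le_add le_rfl (measureReal_biUnion_finset_le _ _)))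
  rw [indep_far hA J T (subset_refl _) r] at h2
  have h3 : ∀ l ∈ (nei J T (T i)).erase i, μ.real (all A (T i ∪ T l) ∩ few A (far J T (T i ∪ T l)) T r) ≤
      pT p (T i) * η * (Cu K r * Real.exp (D - mn p J T + 2 * K) * (1 + mn p J T) ^ r) := by
    intro l hl
    rw [mem_erase, mem_nei] at hl
    rw [indep_far hA J T (subset_refl _) r]
    refine mul_le_mul (hS.two i hi l hl.2.1 (Ne.symm hl.1) (fun h => hl.2.2 h.symm)) (far_two hA hS hD r hi hl.2.1)
      measureReal_nonneg (mul_nonneg (pT_nonneg hA _) hη)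
  have h4 := sum_le_sum h3
  rw [sum_const, nsmul_eq_mul] at h4
  have h5 : (((nei J T (T i)).erase i).card : ℝ) ≤ K := by
    refine le_trans ?_ (hS.nbr i hi)
    exact_mod_cast card_le_card (erase_subset _ _)
  have h6 := Cu_pos K r
  have h7 := mn_nonneg hA J T
  have h8 := pT_nonneg hA (T i)
  have h9 := mul_le_mul_of_nonneg_right h5 (show 0 ≤ pT p (T i) * η *
    (Cu K r * Real.exp (D - mn p J T + 2 * K) * (1 + mn p J T) ^ r) by positivity)
  have h10 : μ.real (few A J T r) ≤ μ.real (few A (far J T (T i)) T r) :=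
    measureReal_mono (few_anti (far_sub J T _) T r) (measure_ne_top _ _)
  have h11 := mul_le_mul_of_nonneg_left h10 h8
  have h12 : K * (pT p (T i) * η * (Cu K r * Real.exp (D - mn p J T + 2 * K) * (1 + mn p J T) ^ r)) =
      pT p (T i) * er K η D (mn p J T) r := by
    unfold er
    ring
  rw [mul_sub]
  linarith

/-- The constants of the error term. -/
noncomputable def Bc (K : ℝ) : ℕ → ℝ
  | 0 => 0
  | r + 1 => Bc K r + 2 * (K * Cu K r * Real.exp (2 * K))

theorem Bc_nonneg {K : ℝ} (hK : 0 ≤ K) (r : ℕ) : 0 ≤ Bc K r := by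
  induction r with
  | zero => exact le_refl _
  | succ r ih =>
    have := Cu_pos K r
    show 0 ≤ Bc K r + 2 * (K * Cu K r * Real.exp (2 * K))
    positivity

theorem er_eq (K η D E : ℝ) (r : ℕ) : er K η D E r =
    (K * Cu K r * Real.exp (2 * K)) * (η * (Real.exp (D - E) * (1 + E) ^ r)) := by
  unfold er
  rw [Real.exp_add]
  ring

/-- **Exactly `r` occurrences.** -/
theorem exa_asy (hA : IsModel μ p A) {J : Finset κ} {T : κ → Finset ι} {K η D : ℝ} (hK : 0 ≤ K) (hη : 0 ≤ η)
    (hS : Sp p J T K η) (hD : ∑ e ∈ cf J T, pT p (T e.1 ∪ T e.2) ≤ D) (r : ℕ) :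
    |μ.real (exa A J T r) - mn p J T ^ r / r.factorial * μ.real (none A J T)| ≤
      Bc K r * (η * (Real.exp (D - mn p J T) * (1 + mn p J T) ^ r)) := by
  have hE := mn_nonneg hA J T
  obtain ⟨E, hEd⟩ : ∃ E, E = mn p J T := ⟨_, rfl⟩
  have hexa0 : exa A J T 0 = few A J T 0 := by
    ext ω
    show (oc A J T ω).card = 0 ↔ (oc A J T ω).card ≤ 0
    omega
  -- the recursion
  have hrec : ∀ r : ℕ, |((r : ℝ) + 1) * μ.real (exa A J T (r + 1)) - E * μ.real (exa A J T r)| ≤
      2 * (E * er K η D E r) := by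
    intro r
    have h1 : ((r : ℝ) + 1) * μ.real (exa A J T (r + 1)) =
        ∑ i ∈ J, μ.real (all A (T i) ∩ few A J T (r + 1)) - ∑ i ∈ J, μ.real (all A (T i) ∩ few A J T r) := by
      have h2 := sum_exa hA J T (r + 1)
      push_cast at h2
      rw [← h2, ← sum_sub_distrib]
      refine sum_congr rfl (fun i _ => ?_)
      rw [all_few_succ hA J T i r]
      ring
    have hup : ∀ r : ℕ, ∑ i ∈ J, μ.real (all A (T i) ∩ few A J T (r + 1)) ≤ E * (μ.real (few A J T r) + er K η D E r) := by
      intro r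
      refine (sum_le_sum (fun i hi => all_few_le hA hK hη hS hD r hi)).trans ?_
      rw [← sum_mul, hEd]
      exact le_refl _
    have hlo : ∀ r : ℕ, E * (μ.real (few A J T r) - er K η D E r) ≤ ∑ i ∈ J, μ.real (all A (T i) ∩ few A J T (r + 1)) := by
      intro r
      refine le_trans ?_ (sum_le_sum (fun i hi => le_all_few hA hη hS hD r hi))
      rw [← sum_mul, hEd]
      exact le_refl _
    have her : ∀ r, 0 ≤ er K η D E r := fun r => er_nonneg hK hη (by rw [hEd]; exact hE) r
    have hE' : 0 ≤ E := by rw [hEd]; exact hE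
    rw [h1]
    rcases r with _ | r
    · have h3 : ∑ i ∈ J, μ.real (all A (T i) ∩ few A J T 0) = 0 := by
        refine sum_eq_zero (fun i hi => ?_)
        have : all A (T i) ∩ few A J T 0 = ∅ := by
          rw [few_zero, Set.eq_empty_iff_forall_notMem]
          rintro ω ⟨h4, h5⟩
          exact h5 i hi h4
        rw [this]
        simp
      rw [h3, hexa0, abs_le]
      have u := hup 0
      have l := hlo 0
      have e := mul_nonneg hE' (her 0)
      constructor <;> nlinarith
    · have u := hup (r + 1)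
      have l := hlo (r + 1)
      have u' := hup r
      have l' := hlo r
      have h4 := real_few_succ hA J T r
      have h5 : er K η D E r ≤ er K η D E (r + 1) := er_mono hK hη hE' r
      have h6 := mul_le_mul_of_nonneg_left h5 hE'
      rw [abs_le]
      constructor <;> nlinarith
  rw [← hEd]
  have hE' : 0 ≤ E := by rw [hEd]; exact hE
  induction r with
  | zero =>
    rw [hexa0, few_zero]
    simp [Bc]
  | succ r ih =>
    have h1 := hrec r
    obtain ⟨X, hX⟩ : ∃ X, X = η * (Real.exp (D - E) * (1 + E) ^ r) := ⟨_, rfl⟩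
    have hX0 : 0 ≤ X := by rw [hX]; positivity
    rw [er_eq, ← hX] at h1
    rw [← hX] at ih
    have h2 : ((r + 1).factorial : ℝ) = ((r : ℝ) + 1) * r.factorial := by
      rw [Nat.factorial_succ]
      push_cast
      ring
    have hf : (0 : ℝ) < r.factorial := by exact_mod_cast Nat.factorial_pos r
    have hr1 : (0 : ℝ) < (r : ℝ) + 1 := by positivity
    have h3 : ((r : ℝ) + 1) * (μ.real (exa A J T (r + 1)) - E ^ (r + 1) / ((r + 1).factorial : ℝ) * μ.real (none A J T)) =
        (((r : ℝ) + 1) * μ.real (exa A J T (r + 1)) - E * μ.real (exa A J T r)) +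
          E * (μ.real (exa A J T r) - E ^ r / r.factorial * μ.real (none A J T)) := by
      rw [h2]
      field_simp
      ring
    have h4 : ((r : ℝ) + 1) * |μ.real (exa A J T (r + 1)) - E ^ (r + 1) / ((r + 1).factorial : ℝ) * μ.real (none A J T)| ≤
        (Bc K r + 2 * (K * Cu K r * Real.exp (2 * K))) * (E * X) := by
      rw [← abs_of_pos hr1, ← abs_mul, h3]
      refine (abs_add_le _ _).trans ?_
      rw [abs_mul E, abs_of_nonneg hE']
      have := mul_le_mul_of_nonneg_left ih hE'
      calc |((r : ℝ) + 1) * μ.real (exa A J T (r + 1)) - E * μ.real (exa A J T r)| +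
            E * |μ.real (exa A J T r) - E ^ r / r.factorial * μ.real (none A J T)|
          ≤ 2 * (E * (K * Cu K r * Real.exp (2 * K) * X)) + E * (Bc K r * X) := add_le_add h1 this
        _ = _ := by ring
    show _ ≤ (Bc K r + 2 * (K * Cu K r * Real.exp (2 * K))) * _
    obtain ⟨B, hB⟩ : ∃ B, B = Bc K r + 2 * (K * Cu K r * Real.exp (2 * K)) := ⟨_, rfl⟩
    have hB0 : 0 ≤ B := by
      have h5 := Bc_nonneg hK r
      have h6 := Cu_pos K r
      rw [hB]
      positivity
    rw [← hB] at h4 ⊢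
    have h5 : η * (Real.exp (D - E) * (1 + E) ^ (r + 1)) = (1 + E) * X := by
      rw [hX, pow_succ]
      ring
    rw [h5]
    obtain ⟨Y, hY⟩ : ∃ Y, Y = |μ.real (exa A J T (r + 1)) - E ^ (r + 1) / ((r + 1).factorial : ℝ) * μ.real (none A J T)| :=
      ⟨_, rfl⟩
    rw [← hY] at h4 ⊢
    have hY0 : 0 ≤ Y := by rw [hY]; exact abs_nonneg _
    have hr0 : (0 : ℝ) ≤ r := Nat.cast_nonneg r
    have h6 : Y ≤ ((r : ℝ) + 1) * Y := by nlinarith
    have h7 : B * (E * X) ≤ B * ((1 + E) * X) := mul_le_mul_of_nonneg_left (by nlinarith) hB0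
    linarith

/-- The truncated exponential sum. -/
noncomputable def Gp (r : ℕ) (E : ℝ) : ℝ := ∑ j ∈ range (r + 1), E ^ j / j.factorial

/-- The constants of the error term. -/
noncomputable def Bs (K : ℝ) (r : ℕ) : ℝ := ∑ j ∈ range (r + 1), Bc K j

theorem Bs_nonneg {K : ℝ} (hK : 0 ≤ K) (r : ℕ) : 0 ≤ Bs K r := sum_nonneg (fun _ _ => Bc_nonneg hK _)

/-- **At most `r` occurrences.** -/
theorem few_asy (hA : IsModel μ p A) {J : Finset κ} {T : κ → Finset ι} {K η D : ℝ} (hK : 0 ≤ K) (hη : 0 ≤ η)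
    (hS : Sp p J T K η) (hD : ∑ e ∈ cf J T, pT p (T e.1 ∪ T e.2) ≤ D) (r : ℕ) :
    |μ.real (few A J T r) - Gp r (mn p J T) * μ.real (none A J T)| ≤
      Bs K r * (η * (Real.exp (D - mn p J T) * (1 + mn p J T) ^ r)) := by
  have hE := mn_nonneg hA J T
  have h1 : ∀ r, μ.real (few A J T r) = ∑ j ∈ range (r + 1), μ.real (exa A J T j) := by
    intro r
    induction r with
    | zero =>
      rw [sum_range_one]
      congr 1
      ext ω
      show (oc A J T ω).card ≤ 0 ↔ (oc A J T ω).card = 0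
      omega
    | succ r ih => rw [real_few_succ hA, ih, sum_range_succ _ (r + 1)]
  rw [h1 r]
  unfold Gp
  rw [sum_mul, ← sum_sub_distrib]
  refine (abs_sum_le_sum_abs _ _).trans ?_
  unfold Bs
  rw [sum_mul]
  refine sum_le_sum (fun j hj => ?_)
  refine (exa_asy hA hK hη hS hD j).trans ?_
  rw [mem_range] at hj
  refine mul_le_mul_of_nonneg_left ?_ (Bc_nonneg hK j)
  refine mul_le_mul_of_nonneg_left ?_ hη
  refine mul_le_mul_of_nonneg_left ?_ (Real.exp_pos _).le
  exact pow_le_pow_right₀ (by linarith) (by omega)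

end Pool.Agent.Q106.ZO
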