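import Pool.Agent.Q106.ZO.Seq

/-!
# The zero-one law for occurrences in a sequence of disjoint sets, and the number of the failures
-/

set_option autoImplicit false

namespace Pool.Agent.Q106.ZO

open Finset MeasureTheory ProbabilityTheory Filter Pool.Agent.Q120.GM Pool.Agent.Q106.UR
open scoped Topology

variable {Ω : Type*} [MeasurableSpace Ω] {μ : Measure Ω} [IsProbabilityMeasure μ] {ι : Type*} [DecidableEq ι]
  {p : ι → ℝ} {A : Ω → Set ι}

/-- The sets of arguments `J n`: the sets `T a` for different `n` are disjoint. -/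
structure Sq (p : ι → ℝ) (T : ℕ → Finset ι) (K q : ℝ) (s : ℕ) (J : ℕ → Finset ℕ) (m : ℕ → ℕ) : Prop where
  disj : ∀ i j, i ≠ j → ∀ a ∈ J i, ∀ b ∈ J j, Disjoint (T a) (T b)
  ne : ∀ a, (T a).Nonempty
  mem : ∀ n, (J n).Nonempty → m n ∈ J n
  sp : ∀ n, (J n).Nonempty → 2 ≤ m n → Sp p (J n) T K ((q / Real.log (m n)) ^ s)

theorem Sq.inj {T : ℕ → Finset ι} {K q : ℝ} {s : ℕ} {J : ℕ → Finset ℕ} {m : ℕ → ℕ} (h : Sq p T K q s J m)
    {i j : ℕ} (hi : (J i).Nonempty) (hj : (J j).Nonempty) (e : m i = m j) : i = j := by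
  by_contra hne
  have h1 := h.disj i j hne (m i) (h.mem i hi) (m j) (h.mem j hj)
  rw [e, disjoint_self] at h1
  exact (h.ne (m j)).ne_empty h1

/-- The error terms. -/
noncomputable def wt (C : ℝ) (J : ℕ → Finset ℕ) (m : ℕ → ℕ) (n : ℕ) : ℝ :=
  {n | (J n).Nonempty}.indicator (fun n => C / ((m n : ℝ) + 1) ^ 2) n

theorem wt_nonneg {C : ℝ} (hC : 0 ≤ C) (J : ℕ → Finset ℕ) (m : ℕ → ℕ) (n : ℕ) : 0 ≤ wt C J m n :=
  Set.indicator_nonneg (fun _ _ => by positivity) _

theorem Sq.summable {T : ℕ → Finset ι} {K q : ℝ} {s : ℕ} {J : ℕ → Finset ℕ} {m : ℕ → ℕ} (h : Sq p T K q s J m)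
    (C : ℝ) : Summable (wt C J m) := by
  unfold wt
  have h1 : Summable (fun k : ℕ => C / ((k : ℝ) + 1) ^ 2) := by
    have h2 := (summable_nat_add_iff 1).2 (Real.summable_one_div_nat_pow (p := 2).2 (by norm_num))
    refine (h2.mul_left C).congr (fun k => ?_)
    push_cast
    ring
  have h3 : Function.Injective (fun n : {n | (J n).Nonempty} => m n) := by
    intro a b e
    exact Subtype.ext (h.inj a.2 b.2 e)
  exact summable_subtype_iff_indicator.1 (h1.comp_injective h3)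

theorem Sq.bounds (hA : IsModel μ p A) {K q : ℝ} (hK : 0 ≤ K) (hq : 0 ≤ q) (r : ℕ) :
    ∃ c C C' : ℝ, 0 < c ∧ 0 < C ∧ 0 ≤ C' ∧ ∀ (T : ℕ → Finset ι) (J : ℕ → Finset ℕ) (m : ℕ → ℕ), Sq p T K q 1 J m →
      ∀ n, μ.real (few A (J n) T r) ≤ C * ps r (mn p (J n) T) + wt C' J m n ∧
        c * ps r (mn p (J n) T) ≤ μ.real (few A (J n) T r) + wt C' J m n := by
  obtain ⟨c, C, C', hc, hC, hC', M₀, h⟩ := pw_one hA hK hq r
  refine ⟨min c 1, max C 1, C' + ((M₀ : ℝ) + 3) ^ 2, by positivity, by positivity, by positivity, ?_⟩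
  intro T J m hSq n
  have hE := mn_nonneg hA (J n) T
  have hps := ps_nonneg hE r
  have hps1 := ps_le_one hE r
  have hmin : min c 1 ≤ 1 := min_le_right _ _
  have hmin' : min c 1 ≤ c := min_le_left _ _
  have hmin0 : 0 ≤ min c 1 := by positivity
  have hmax : C ≤ max C 1 := le_max_left _ _
  have hmax' : 1 ≤ max C 1 := le_max_right _ _
  have hμ0 : 0 ≤ μ.real (few A (J n) T r) := measureReal_nonneg
  have hμ1 : μ.real (few A (J n) T r) ≤ 1 := measureReal_le_one
  by_cases hn : (J n).Nonempty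
  · have hw : wt (C' + ((M₀ : ℝ) + 3) ^ 2) J m n = (C' + ((M₀ : ℝ) + 3) ^ 2) / ((m n : ℝ) + 1) ^ 2 := by
      unfold wt
      exact Set.indicator_of_mem (show n ∈ {n | (J n).Nonempty} from hn) _
    rw [hw, add_div]
    have hw1 : 0 ≤ C' / ((m n : ℝ) + 1) ^ 2 := by positivity
    have hw2 : 0 ≤ ((M₀ : ℝ) + 3) ^ 2 / ((m n : ℝ) + 1) ^ 2 := by positivity
    by_cases hm : max M₀ 2 ≤ m n
    · obtain ⟨h1, h2⟩ := h (m n) (J n) T ((le_max_left _ _).trans hm) (hSq.sp n hn ((le_max_right _ _).trans hm))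
      have h3 := mul_le_mul_of_nonneg_right hmax hps
      have h4 := mul_le_mul_of_nonneg_right hmin' hps
      constructor <;> linarith
    · push Not at hm
      have h5 : (1 : ℝ) ≤ ((M₀ : ℝ) + 3) ^ 2 / ((m n : ℝ) + 1) ^ 2 := by
        rw [one_le_div (by positivity)]
        refine pow_le_pow_left₀ (by positivity) ?_ 2
        have h6 : m n ≤ M₀ + 2 := by omega
        have h7 : (m n : ℝ) ≤ M₀ + 2 := by exact_mod_cast h6
        linarith
      have h3 : 0 ≤ max C 1 * ps r (mn p (J n) T) := by positivity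
      have h4 : min c 1 * ps r (mn p (J n) T) ≤ 1 := by nlinarith
      constructor <;> linarith
  · rw [not_nonempty_iff_eq_empty] at hn
    have hw : 0 ≤ wt (C' + ((M₀ : ℝ) + 3) ^ 2) J m n := wt_nonneg (by positivity) J m n
    have e1 : mn p (J n) T = 0 := by rw [hn]; simp [mn]
    have e2 : μ.real (few A (J n) T r) = 1 := by
      have : few A (J n) T r = Set.univ := by
        rw [Set.eq_univ_iff_forall]
        intro ω
        show (oc A (J n) T ω).card ≤ r
        have : oc A (J n) T ω = ∅ := by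
          rw [eq_empty_iff_forall_notMem]
          intro j hj
          rw [mem_oc, hn] at hj
          exact absurd hj.1 (notMem_empty j)
        rw [this]
        simp
      rw [this]
      simp
    rw [e2, e1, ps_zero]
    constructor <;> linarith

theorem Sq.bounds_two (hA : IsModel μ p A) {K q : ℝ} (hK : 0 ≤ K) (hq : 0 ≤ q) (r : ℕ) {δ : ℝ} (hδ : 0 < δ) :
    ∃ C' : ℝ, 0 ≤ C' ∧ ∀ (T : ℕ → Finset ι) (J : ℕ → Finset ℕ) (m : ℕ → ℕ), Sq p T K q 2 J m →
      ∀ n, |μ.real (few A (J n) T r) - ps r (mn p (J n) T)| ≤ δ * ps r (mn p (J n) T) + wt C' J m n := by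
  obtain ⟨C', hC', M₀, h⟩ := pw_two hA hK hq r hδ
  refine ⟨C' + ((M₀ : ℝ) + 3) ^ 2, by positivity, ?_⟩
  intro T J m hSq n
  have hE := mn_nonneg hA (J n) T
  have hps := ps_nonneg hE r
  have hps1 := ps_le_one hE r
  have hμ0 : 0 ≤ μ.real (few A (J n) T r) := measureReal_nonneg
  have hμ1 : μ.real (few A (J n) T r) ≤ 1 := measureReal_le_one
  have hδps : 0 ≤ δ * ps r (mn p (J n) T) := by positivity
  by_cases hn : (J n).Nonempty
  · have hw : wt (C' + ((M₀ : ℝ) + 3) ^ 2) J m n = (C' + ((M₀ : ℝ) + 3) ^ 2) / ((m n : ℝ) + 1) ^ 2 := by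
      unfold wt
      exact Set.indicator_of_mem (show n ∈ {n | (J n).Nonempty} from hn) _
    rw [hw, add_div]
    have hw1 : 0 ≤ C' / ((m n : ℝ) + 1) ^ 2 := by positivity
    have hw2 : 0 ≤ ((M₀ : ℝ) + 3) ^ 2 / ((m n : ℝ) + 1) ^ 2 := by positivity
    by_cases hm : max M₀ 2 ≤ m n
    · have h1 := h (m n) (J n) T ((le_max_left _ _).trans hm) (hSq.sp n hn ((le_max_right _ _).trans hm))
      linarith
    · push Not at hm
      have h5 : (1 : ℝ) ≤ ((M₀ : ℝ) + 3) ^ 2 / ((m n : ℝ) + 1) ^ 2 := by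
        rw [one_le_div (by positivity)]
        refine pow_le_pow_left₀ (by positivity) ?_ 2
        have h6 : m n ≤ M₀ + 2 := by omega
        have h7 : (m n : ℝ) ≤ M₀ + 2 := by exact_mod_cast h6
        linarith
      rw [abs_le]
      constructor <;> linarith
  · rw [not_nonempty_iff_eq_empty] at hn
    have hw : 0 ≤ wt (C' + ((M₀ : ℝ) + 3) ^ 2) J m n := wt_nonneg (by positivity) J m n
    have e1 : mn p (J n) T = 0 := by rw [hn]; simp [mn]
    have e2 : μ.real (few A (J n) T r) = 1 := by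
      have : few A (J n) T r = Set.univ := by
        rw [Set.eq_univ_iff_forall]
        intro ω
        show (oc A (J n) T ω).card ≤ r
        have : oc A (J n) T ω = ∅ := by
          rw [eq_empty_iff_forall_notMem]
          intro j hj
          rw [mem_oc, hn] at hj
          exact absurd hj.1 (notMem_empty j)
        rw [this]
        simp
      rw [this]
      simp
    rw [e2, e1, ps_zero]
    simp only [sub_self, abs_zero]
    linarith

theorem Sq.pair {T : ℕ → Finset ι} {K q : ℝ} {s : ℕ} {J : ℕ → Finset ℕ} {m : ℕ → ℕ} (h : Sq p T K q s J m)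
    (hA : IsModel μ p A) (r : ℕ) (i j : ℕ) (hij : i ≠ j) :
    μ.real (few A (J i) T r ∩ few A (J j) T r) ≤ μ.real (few A (J i) T r) * μ.real (few A (J j) T r) := by
  refine le_of_eq ?_
  refine indep_real hA (S := ⋃ a ∈ J i, (↑(T a) : Set ι)) (T := ⋃ a ∈ J j, (↑(T a) : Set ι)) ?_
    (F_few (fun a ha b hb => Set.mem_biUnion ha hb) r) (F_few (fun a ha b hb => Set.mem_biUnion ha hb) r)
  rw [Set.disjoint_left]
  intro b hb1 hb2
  rw [Set.mem_iUnion₂] at hb1 hb2
  obtain ⟨a, ha, hb1⟩ := hb1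
  obtain ⟨a', ha', hb2⟩ := hb2
  exact Finset.disjoint_left.1 (h.disj i j hij a ha a' ha') hb1 hb2

/-- The number of the `n < N` with at most `r` occurrences. -/
noncomputable def fl (A : Ω → Set ι) (T : ℕ → Finset ι) (J : ℕ → Finset ℕ) (r N : ℕ) (ω : Ω) : ℝ :=
  Pool.Agent.Q120.NC.cnt (fun n => few A (J n) T r) N ω

/-- **The zero-one law.** -/
theorem zero_one (hA : IsModel μ p A) {K q : ℝ} (hK : 0 ≤ K) (hq : 0 ≤ q) (r : ℕ) :
    ∃ c C : ℝ, 0 < c ∧ 0 < C ∧ ∀ (T : ℕ → Finset ι) (J : ℕ → Finset ℕ) (m : ℕ → ℕ), Sq p T K q 1 J m →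
      (Summable (fun n => ps r (mn p (J n) T)) → ∀ᵐ ω ∂μ, ∀ᶠ n in atTop, ω ∉ few A (J n) T r) ∧
      (¬ Summable (fun n => ps r (mn p (J n) T)) → ∀ᵐ ω ∂μ, ∀ᶠ N in atTop,
        c * ∑ n ∈ range N, ps r (mn p (J n) T) ≤ fl A T J r N ω ∧
        fl A T J r N ω ≤ C * ∑ n ∈ range N, ps r (mn p (J n) T)) := by
  obtain ⟨c, C, C', hc, hC, hC', h⟩ := Sq.bounds hA hK hq r
  refine ⟨c / 4, 4 * C, by positivity, by positivity, ?_⟩
  intro T J m hSq
  have hb := h T J m hSq
  have hps : ∀ n, 0 ≤ ps r (mn p (J n) T) := fun n => ps_nonneg (mn_nonneg hA _ _) r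
  have hw := hSq.summable C'
  have hw0 : ∀ n, 0 ≤ wt C' J m n := fun n => wt_nonneg hC' J m n
  constructor
  · intro hs
    refine bc ((hs.mul_left C).add hw) (Eventually.of_forall (fun n => (hb n).1))
  · intro hs
    have hS := (not_summable_iff_tendsto_nat_atTop_of_nonneg hps).1 hs
    have hns : ¬ Summable (fun n => μ.real (few A (J n) T r)) := by
      intro hcon
      apply hs
      have h1 := (hcon.add hw)
      refine Summable.of_nonneg_of_le hps (fun n => ?_) (h1.mul_left (1 / c))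
      have h2 := (hb n).2
      rw [one_div, ← div_eq_inv_mul, le_div_iff₀ hc]
      linarith
    have htot : Tendsto (Pool.Agent.Q120.NC.tot μ (fun n => few A (J n) T r)) atTop atTop :=
      (not_summable_iff_tendsto_nat_atTop_of_nonneg (fun n => measureReal_nonneg)).1 hns
    have hlaw := Pool.Agent.Q120.NC.strong_law (μ := μ) (E := fun n => few A (J n) T r)
      (fun n => meas_few hA _ _ _) (fun i j hij => hSq.pair hA r i j hij) htot
    obtain ⟨W, hW⟩ : ∃ W, W = ∑' n, wt C' J m n := ⟨_, rfl⟩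
    have hWN : ∀ N, ∑ n ∈ range N, wt C' J m n ≤ W := fun N => by
      rw [hW]
      exact hw.sum_le_tsum _ (fun n _ => hw0 n)
    filter_upwards [hlaw] with ω hω
    have e1 : ∀ᶠ N in atTop, Pool.Agent.Q120.NC.cnt (fun n => few A (J n) T r) N ω /
        Pool.Agent.Q120.NC.tot μ (fun n => few A (J n) T r) N ∈ Set.Icc (1 / 2 : ℝ) 2 :=
      hω (Icc_mem_nhds (by norm_num) (by norm_num))
    filter_upwards [e1, htot.eventually_gt_atTop 0, hS.eventually_ge_atTop (W / (c / 2)),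
      hS.eventually_ge_atTop (W / C)] with N h1 h2 h3 h4
    rw [div_le_iff₀ (by positivity)] at h3
    rw [div_le_iff₀ hC] at h4
    rw [Set.mem_Icc, le_div_iff₀ h2, div_le_iff₀ h2] at h1
    have h5 : Pool.Agent.Q120.NC.tot μ (fun n => few A (J n) T r) N ≤
        C * ∑ n ∈ range N, ps r (mn p (J n) T) + W := by
      have := sum_le_sum (s := range N) (fun n _ => (hb n).1)
      rw [sum_add_distrib, ← mul_sum] at this
      unfold Pool.Agent.Q120.NC.tot
      linarith [hWN N]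
    have h6 : c * ∑ n ∈ range N, ps r (mn p (J n) T) ≤
        Pool.Agent.Q120.NC.tot μ (fun n => few A (J n) T r) N + W := by
      have := sum_le_sum (s := range N) (fun n _ => (hb n).2)
      rw [sum_add_distrib, ← mul_sum] at this
      unfold Pool.Agent.Q120.NC.tot
      linarith [hWN N]
    unfold fl
    obtain ⟨S, hSd⟩ : ∃ S, S = ∑ n ∈ range N, ps r (mn p (J n) T) := ⟨_, rfl⟩
    rw [← hSd] at h3 h4 h5 h6 ⊢
    constructor <;> linarith [h1.1, h1.2]

/-- **The number of the failures.** -/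
theorem count_law (hA : IsModel μ p A) {K q : ℝ} (hK : 0 ≤ K) (hq : 0 ≤ q) (r : ℕ) (T : ℕ → Finset ι)
    (J : ℕ → Finset ℕ) (m : ℕ → ℕ) (hSq : Sq p T K q 2 J m) (hs : ¬ Summable (fun n => ps r (mn p (J n) T))) :
    ∀ᵐ ω ∂μ, Tendsto (fun N => fl A T J r N ω / ∑ n ∈ range N, ps r (mn p (J n) T)) atTop (𝓝 1) := by
  have hps : ∀ n, 0 ≤ ps r (mn p (J n) T) := fun n => ps_nonneg (mn_nonneg hA _ _) r
  have hS := (not_summable_iff_tendsto_nat_atTop_of_nonneg hps).1 hs
  have hclose : ∀ δ : ℝ, 0 < δ → ∀ᶠ N in atTop,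
      |Pool.Agent.Q120.NC.tot μ (fun n => few A (J n) T r) N - ∑ n ∈ range N, ps r (mn p (J n) T)| ≤
        δ * ∑ n ∈ range N, ps r (mn p (J n) T) := by
    intro δ hδ
    obtain ⟨C', hC', h⟩ := Sq.bounds_two hA hK hq r (half_pos hδ)
    have hb := h T J m hSq
    have hw := hSq.summable C'
    have hw0 : ∀ n, 0 ≤ wt C' J m n := fun n => wt_nonneg hC' J m n
    obtain ⟨W, hW⟩ : ∃ W, W = ∑' n, wt C' J m n := ⟨_, rfl⟩
    have hWN : ∀ N, ∑ n ∈ range N, wt C' J m n ≤ W := fun N => by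
      rw [hW]
      exact hw.sum_le_tsum _ (fun n _ => hw0 n)
    filter_upwards [hS.eventually_ge_atTop (W / (δ / 2))] with N h3
    rw [div_le_iff₀ (by positivity)] at h3
    unfold Pool.Agent.Q120.NC.tot
    rw [← sum_sub_distrib]
    refine (abs_sum_le_sum_abs _ _).trans ((sum_le_sum (fun n _ => hb n)).trans ?_)
    rw [sum_add_distrib, ← mul_sum]
    linarith [hWN N]
  have htot1 : Tendsto (fun N => Pool.Agent.Q120.NC.tot μ (fun n => few A (J n) T r) N /
      ∑ n ∈ range N, ps r (mn p (J n) T)) atTop (𝓝 1) := by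
    rw [Metric.tendsto_atTop']
    intro δ hδ
    obtain ⟨N₀, hN₀⟩ := eventually_atTop.1 ((hclose (δ / 2) (half_pos hδ)).and (hS.eventually_gt_atTop 0))
    refine ⟨N₀, fun N hN => ?_⟩
    obtain ⟨h1, h2⟩ := hN₀ N hN.le
    rw [Real.dist_eq, div_sub_one h2.ne', abs_div, abs_of_pos h2, div_lt_iff₀ h2]
    have : δ / 2 * ∑ n ∈ range N, ps r (mn p (J n) T) < δ * ∑ n ∈ range N, ps r (mn p (J n) T) :=
      mul_lt_mul_of_pos_right (by linarith) h2
    linarith
  have htot : Tendsto (Pool.Agent.Q120.NC.tot μ (fun n => few A (J n) T r)) atTop atTop := by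
    refine tendsto_atTop_mono' atTop ?_ (hS.const_mul_atTop (show (0 : ℝ) < 1 / 2 by norm_num))
    filter_upwards [hclose (1 / 2) (by norm_num)] with N hN
    rw [abs_le] at hN
    show 1 / 2 * ∑ n ∈ range N, ps r (mn p (J n) T) ≤ _
    linarith [hN.1]
  have hlaw := Pool.Agent.Q120.NC.strong_law (μ := μ) (E := fun n => few A (J n) T r)
    (fun n => meas_few hA _ _ _) (fun i j hij => hSq.pair hA r i j hij) htot
  filter_upwards [hlaw] with ω hω
  have h1 := hω.mul htot1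
  rw [one_mul] at h1
  refine h1.congr' ?_
  filter_upwards [htot.eventually_gt_atTop 0] with N hN
  unfold fl
  field_simp

end Pool.Agent.Q106.ZO
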