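import Pool.Agent.Q106.ZO.Asy

/-!
# Uniform bounds for the probability of few occurrences in terms of the mean
-/

set_option autoImplicit false

namespace Pool.Agent.Q106.ZO

open Finset MeasureTheory ProbabilityTheory Filter Pool.Agent.Q120.GM Pool.Agent.Q106.UR
open scoped Topology

variable {Ω : Type*} [MeasurableSpace Ω] {μ : Measure Ω} [IsProbabilityMeasure μ] {ι κ : Type*} [DecidableEq ι]
  [DecidableEq κ] {p : ι → ℝ} {A : Ω → Set ι}

/-- The probability that a Poisson variable of mean `E` is at most `r`. -/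
noncomputable def ps (r : ℕ) (E : ℝ) : ℝ := Real.exp (-E) * Gp r E

theorem Gp_nonneg {E : ℝ} (hE : 0 ≤ E) (r : ℕ) : 0 ≤ Gp r E := sum_nonneg (fun _ _ => by positivity)

theorem Gp_one_le {E : ℝ} (hE : 0 ≤ E) (r : ℕ) : 1 ≤ Gp r E := by
  unfold Gp
  have h1 : (fun j : ℕ => E ^ j / (j.factorial : ℝ)) 0 ≤ ∑ j ∈ range (r + 1), E ^ j / (j.factorial : ℝ) :=
    single_le_sum (f := fun j : ℕ => E ^ j / (j.factorial : ℝ)) (fun j _ => by positivity) (mem_range.2 (by omega))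
  simpa using h1

theorem ps_nonneg {E : ℝ} (hE : 0 ≤ E) (r : ℕ) : 0 ≤ ps r E := mul_nonneg (Real.exp_pos _).le (Gp_nonneg hE r)

theorem ps_pos {E : ℝ} (hE : 0 ≤ E) (r : ℕ) : 0 < ps r E :=
  mul_pos (Real.exp_pos _) (lt_of_lt_of_le one_pos (Gp_one_le hE r))

theorem Gp_le_exp {E : ℝ} (hE : 0 ≤ E) (r : ℕ) : Gp r E ≤ Real.exp E := by
  unfold Gp
  exact Real.sum_le_exp_of_nonneg hE (r + 1)

theorem ps_le_one {E : ℝ} (hE : 0 ≤ E) (r : ℕ) : ps r E ≤ 1 := by
  unfold ps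
  have h1 := mul_le_mul_of_nonneg_left (Gp_le_exp hE r) (Real.exp_pos (-E)).le
  rwa [← Real.exp_add, neg_add_cancel, Real.exp_zero] at h1

theorem ps_zero (r : ℕ) : ps r 0 = 1 := by
  have h1 : Gp r 0 = 1 := by
    unfold Gp
    rw [sum_range_succ']
    simp
  unfold ps
  rw [h1]
  simp

theorem pow_le_Gp {E : ℝ} (hE : 0 ≤ E) (r : ℕ) : (1 + E) ^ r ≤ 2 ^ r * r.factorial * Gp r E := by
  have hf : (1 : ℝ) ≤ r.factorial := by exact_mod_cast Nat.one_le_iff_ne_zero.2 (Nat.factorial_ne_zero r)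
  have hG := Gp_one_le hE r
  rcases le_total E 1 with h | h
  · have h1 : (1 + E) ^ r ≤ 2 ^ r := pow_le_pow_left₀ (by linarith) (by linarith) r
    have h2 : (2 : ℝ) ^ r * 1 * 1 ≤ 2 ^ r * r.factorial * Gp r E :=
      mul_le_mul (mul_le_mul_of_nonneg_left hf (by positivity)) hG zero_le_one (by positivity)
    linarith
  · have h1 : (1 + E) ^ r ≤ (2 * E) ^ r := pow_le_pow_left₀ (by linarith) (by linarith) r
    have h2 : E ^ r / r.factorial ≤ Gp r E := by
      unfold Gp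
      exact single_le_sum (f := fun j : ℕ => E ^ j / (j.factorial : ℝ)) (fun j _ => by positivity)
        (mem_range.2 (by omega))
    have h3 : E ^ r ≤ r.factorial * Gp r E := by
      rw [div_le_iff₀ (by linarith)] at h2
      linarith
    rw [mul_pow] at h1
    have h4 := mul_le_mul_of_nonneg_left h3 (show (0 : ℝ) ≤ 2 ^ r by positivity)
    linarith

theorem Gp_le_pow {E : ℝ} (hE : 0 ≤ E) (r : ℕ) : Gp r E ≤ ((r : ℝ) + 1) * (1 + E) ^ r := by
  unfold Gp
  have h1 : ∀ j ∈ range (r + 1), E ^ j / (j.factorial : ℝ) ≤ (1 + E) ^ r := by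
    intro j hj
    rw [mem_range] at hj
    have hf : (1 : ℝ) ≤ j.factorial := by exact_mod_cast Nat.one_le_iff_ne_zero.2 (Nat.factorial_ne_zero j)
    have h2 : E ^ j / (j.factorial : ℝ) ≤ E ^ j := div_le_self (by positivity) hf
    have h3 : E ^ j ≤ (1 + E) ^ j := pow_le_pow_left₀ hE (by linarith) j
    have h4 : (1 + E) ^ j ≤ (1 + E) ^ r := pow_le_pow_right₀ (by linarith) (by omega)
    linarith
  refine (sum_le_sum h1).trans ?_
  rw [sum_const, card_range, nsmul_eq_mul]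
  push_cast
  exact le_refl _

theorem pow_le_exp (r : ℕ) {E : ℝ} (hE : 0 ≤ E) : (1 + E) ^ r ≤ 12 ^ r * r.factorial * Real.exp (1 / 12) * Real.exp (E / 12) := by
  have hf : (0 : ℝ) < r.factorial := by exact_mod_cast Nat.factorial_pos r
  have h1 := Real.pow_div_factorial_le_exp ((1 + E) / 12) (by positivity) r
  rw [div_le_iff₀ hf, div_pow, div_le_iff₀ (by positivity)] at h1
  have h2 : Real.exp ((1 + E) / 12) = Real.exp (1 / 12) * Real.exp (E / 12) := by
    rw [← Real.exp_add]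
    congr 1
    ring
  rw [h2] at h1
  linarith

theorem none_low (hA : IsModel μ p A) (J : Finset κ) (T : κ → Finset ι) {ζ : ℝ} (hζ : ∀ j ∈ J, pT p (T j) ≤ ζ)
    (hζ0 : 0 ≤ ζ) (hζ1 : ζ ≤ 1 / 2) : Real.exp (-((1 + 2 * ζ) * mn p J T)) ≤ μ.real (none A J T) := by
  refine le_trans ?_ (harris hA J T)
  have h1 : Real.exp (-((1 + 2 * ζ) * mn p J T)) = ∏ j ∈ J, Real.exp (-((1 + 2 * ζ) * pT p (T j))) := by
    rw [← Real.exp_sum, sum_neg_distrib, ← mul_sum]
    rfl
  rw [h1]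
  refine prod_le_prod (fun j _ => (Real.exp_pos _).le) (fun j hj => ?_)
  have hx0 := pT_nonneg hA (T j)
  have hx1 := hζ j hj
  show _ ≤ 1 - pT p (T j)
  obtain ⟨x, hx⟩ : ∃ x, x = pT p (T j) := ⟨_, rfl⟩
  rw [← hx] at hx0 hx1 ⊢
  have h2 : 1 + (1 + 2 * ζ) * x ≤ Real.exp ((1 + 2 * ζ) * x) := by
    have := Real.add_one_le_exp ((1 + 2 * ζ) * x)
    linarith
  have h3 : 0 < 1 + (1 + 2 * ζ) * x := by positivity
  rw [Real.exp_neg]
  refine (inv_anti₀ h3 h2).trans ?_
  rw [inv_le_iff_one_le_mul₀ h3]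
  have h4 : (1 + 2 * ζ) * x ≤ 2 * ζ := by nlinarith
  nlinarith [mul_le_mul_of_nonneg_left h4 hx0]

theorem cf_le (hA : IsModel μ p A) {J : Finset κ} {T : κ → Finset ι} {K η : ℝ} (hη : 0 ≤ η) (hS : Sp p J T K η) :
    ∑ e ∈ cf J T, pT p (T e.1 ∪ T e.2) ≤ K * η * mn p J T := by
  rw [sum_cf]
  unfold mn
  rw [mul_sum]
  refine sum_le_sum (fun j hj => ?_)
  have h1 : ∀ l ∈ J.filter (fun l => j ≠ l ∧ ¬ Disjoint (T j) (T l)), pT p (T j ∪ T l) ≤ pT p (T j) * η := by
    intro l hl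
    rw [mem_filter] at hl
    exact hS.two j hj l hl.1 hl.2.1 hl.2.2
  refine (sum_le_sum h1).trans ?_
  rw [sum_const, nsmul_eq_mul]
  have h2 : ((J.filter (fun l => j ≠ l ∧ ¬ Disjoint (T j) (T l))).card : ℝ) ≤ K := by
    refine le_trans ?_ (hS.nbr j hj)
    exact_mod_cast card_le_card (fun l hl => by
      rw [mem_filter] at hl
      exact mem_nei.2 ⟨hl.1, fun h => hl.2.2 h.symm⟩)
  have h3 := mul_le_mul_of_nonneg_right h2 (mul_nonneg (pT_nonneg hA (T j)) hη)
  linarith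

/-- **Small means.** -/
theorem pt_small (hA : IsModel μ p A) {J : Finset κ} {T : κ → Finset ι} {K η D₀ δ : ℝ} (hK : 0 ≤ K) (hη : 0 ≤ η)
    (hη1 : η ≤ 1 / 2) (hS : Sp p J T K η) (hD : K * η * mn p J T ≤ D₀) (hδ : 2 * η * mn p J T ≤ δ) (r : ℕ) :
    μ.real (few A J T r) ≤ (Real.exp D₀ + Bs K r * (2 ^ r * r.factorial) * Real.exp D₀ * η) * ps r (mn p J T) ∧
    (Real.exp (-δ) - Bs K r * (2 ^ r * r.factorial) * Real.exp D₀ * η) * ps r (mn p J T) ≤ μ.real (few A J T r) := by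
  have hE := mn_nonneg hA J T
  have hcf := (cf_le hA hη hS).trans hD
  have h1 := few_asy hA hK hη hS hcf r
  obtain ⟨E, hEd⟩ : ∃ E, E = mn p J T := ⟨_, rfl⟩
  have hlow := none_low hA J T hS.one hη hη1
  have hup : μ.real (none A J T) ≤ Real.exp D₀ * Real.exp (-E) := by
    refine (janson' hA J T).trans ?_
    rw [← Real.exp_add]
    refine Real.exp_le_exp.2 ?_
    show -mn p J T + _ ≤ _
    rw [hEd]
    linarith
  rw [← hEd] at h1 hlow hE hδ ⊢
  have hlow' : Real.exp (-δ) * Real.exp (-E) ≤ μ.real (none A J T) := by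
    refine le_trans ?_ hlow
    rw [← Real.exp_add]
    exact Real.exp_le_exp.2 (by linarith)
  have hG := Gp_nonneg hE r
  have hB := Bs_nonneg hK r
  have h2 : Bs K r * (η * (Real.exp (D₀ - E) * (1 + E) ^ r)) ≤
      Bs K r * (2 ^ r * r.factorial) * Real.exp D₀ * η * ps r E := by
    have h3 := pow_le_Gp hE r
    have h4 : Real.exp (D₀ - E) = Real.exp D₀ * Real.exp (-E) := by rw [← Real.exp_add]; congr 1
    rw [h4]
    unfold ps
    have h5 := mul_le_mul_of_nonneg_left h3 (show 0 ≤ Bs K r * η * Real.exp D₀ * Real.exp (-E) by positivity)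
    linarith
  rw [abs_le] at h1
  constructor
  · have h6 := mul_le_mul_of_nonneg_left hup hG
    have h7 : Gp r E * (Real.exp D₀ * Real.exp (-E)) = Real.exp D₀ * ps r E := by
      unfold ps
      ring
    rw [add_mul]
    linarith [h1.2]
  · have h6 := mul_le_mul_of_nonneg_left hlow' hG
    have h7 : Gp r E * (Real.exp (-δ) * Real.exp (-E)) = Real.exp (-δ) * ps r E := by
      unfold ps
      ring
    rw [sub_mul]
    linarith [h1.1]

/-- **Large means.** -/
theorem pt_large (hA : IsModel μ p A) {J : Finset κ} {T : κ → Finset ι} {K η l : ℝ} (hη : 0 ≤ η)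
    (hKη : K * η ≤ 1 / 12) (hS : Sp p J T K η) (hl : 3 * l ≤ mn p J T) (hl0 : 0 ≤ l) (r : ℕ) :
    μ.real (few A J T r) ≤ Cu K r * (12 ^ r * r.factorial * Real.exp (1 / 12)) * Real.exp (-(2 * l)) ∧
    ps r (mn p J T) ≤ ((r : ℝ) + 1) * (12 ^ r * r.factorial * Real.exp (1 / 12)) * Real.exp (-(2 * l)) := by
  have hE := mn_nonneg hA J T
  have h1 := few_up hA hS (cf_le hA hη hS) r J (subset_refl _)
  obtain ⟨E, hEd⟩ : ∃ E, E = mn p J T := ⟨_, rfl⟩
  rw [← hEd] at h1 hE hl ⊢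
  have hC := Cu_pos K r
  have h2 := pow_le_exp r hE
  have h3 : Real.exp (K * η * E - E) ≤ Real.exp (-(2 * l)) * Real.exp (-(E / 12)) := by
    rw [← Real.exp_add]
    refine Real.exp_le_exp.2 ?_
    have : K * η * E ≤ 1 / 12 * E := mul_le_mul_of_nonneg_right hKη hE
    linarith
  have h4 : Real.exp (-E) ≤ Real.exp (-(2 * l)) * Real.exp (-(E / 12)) := by
    rw [← Real.exp_add]
    exact Real.exp_le_exp.2 (by linarith)
  have h5 : Real.exp (-(E / 12)) * Real.exp (E / 12) = 1 := by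
    rw [← Real.exp_add, neg_add_cancel, Real.exp_zero]
  constructor
  · refine h1.trans ?_
    calc Cu K r * Real.exp (K * η * E - E) * (1 + E) ^ r
        ≤ Cu K r * (Real.exp (-(2 * l)) * Real.exp (-(E / 12))) *
          (12 ^ r * r.factorial * Real.exp (1 / 12) * Real.exp (E / 12)) := by
          refine mul_le_mul (mul_le_mul_of_nonneg_left h3 (by linarith)) h2 (by positivity) (by positivity)
      _ = Cu K r * (12 ^ r * r.factorial * Real.exp (1 / 12)) * Real.exp (-(2 * l)) *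
          (Real.exp (-(E / 12)) * Real.exp (E / 12)) := by ring
      _ = _ := by rw [h5, mul_one]
  · unfold ps
    have h6 := Gp_le_pow hE r
    calc Real.exp (-E) * Gp r E ≤ Real.exp (-(2 * l)) * Real.exp (-(E / 12)) *
          (((r : ℝ) + 1) * (12 ^ r * r.factorial * Real.exp (1 / 12) * Real.exp (E / 12))) := by
          refine mul_le_mul h4 (h6.trans (mul_le_mul_of_nonneg_left h2 (by positivity))) (Gp_nonneg hE r) (by positivity)
      _ = ((r : ℝ) + 1) * (12 ^ r * r.factorial * Real.exp (1 / 12)) * Real.exp (-(2 * l)) *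
          (Real.exp (-(E / 12)) * Real.exp (E / 12)) := by ring
      _ = _ := by rw [h5, mul_one]

end Pool.Agent.Q106.ZO
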