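import Pool.Agent.Q106.ZO.Pt

/-!
# The series of `1 / (n (log n)^b)`
-/

set_option autoImplicit false

namespace Pool.Agent.Q106.ZO

open Finset Filter
open scoped Topology

/-- The terms of the series. -/
noncomputable def gb (b : ℝ) (n : ℕ) : ℝ := 1 / ((n : ℝ) * Real.log n ^ b)

theorem log_one {n : ℕ} (hn : 3 ≤ n) : 1 ≤ Real.log n := by
  have h1 : (3 : ℝ) ≤ n := by exact_mod_cast hn
  have h2 : Real.log (Real.exp 1) ≤ Real.log n := Real.log_le_log (Real.exp_pos 1) (by
    have := Real.exp_one_lt_d9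
    linarith)
  rwa [Real.log_exp] at h2

theorem gb_summable {b : ℝ} (hb : 1 < b) : Summable (gb b) := by
  rw [← summable_nat_add_iff 1]
  have hl2 : 0 < Real.log 2 := Real.log_pos (by norm_num)
  have hnn : ∀ n : ℕ, 0 ≤ gb b (n + 1) := by
    intro n
    unfold gb
    have := Real.log_natCast_nonneg (n + 1)
    positivity
  rw [← summable_condensed_iff_of_nonneg hnn]
  · have h1 : Summable (fun k : ℕ => 1 / Real.log 2 ^ b * (1 / (k : ℝ) ^ b)) :=
      (Real.summable_one_div_nat_rpow.2 hb).mul_left _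
    refine Summable.of_norm_bounded_eventually_nat h1 ?_
    filter_upwards [eventually_ge_atTop 1] with k hk
    have hk1 : (1 : ℝ) ≤ k := by exact_mod_cast hk
    have h2 : 0 ≤ (2 : ℝ) ^ k * gb b (2 ^ k + 1) := mul_nonneg (by positivity) (hnn (2 ^ k))
    rw [Real.norm_of_nonneg h2]
    unfold gb
    have h3 : (k : ℝ) * Real.log 2 ≤ Real.log ((2 ^ k + 1 : ℕ) : ℝ) := by
      rw [← Real.log_pow]
      refine Real.log_le_log (by positivity) ?_
      push_cast
      linarith
    have h4 : ((k : ℝ) * Real.log 2) ^ b ≤ Real.log ((2 ^ k + 1 : ℕ) : ℝ) ^ b :=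
      Real.rpow_le_rpow (by positivity) h3 (by linarith)
    have h5 : (0 : ℝ) < ((k : ℝ) * Real.log 2) ^ b := by positivity
    have h8 : 0 < Real.log ((2 ^ k + 1 : ℕ) : ℝ) := lt_of_lt_of_le (by positivity) h3
    have h6 : ((k : ℝ) * Real.log 2) ^ b = (k : ℝ) ^ b * Real.log 2 ^ b := Real.mul_rpow (by positivity) hl2.le
    have h7 : (2 : ℝ) ^ k * (1 / (((2 ^ k + 1 : ℕ) : ℝ) * Real.log ((2 ^ k + 1 : ℕ) : ℝ) ^ b)) ≤
        1 / ((k : ℝ) * Real.log 2) ^ b := by
      rw [mul_one_div, div_le_div_iff₀ (by positivity) h5, one_mul]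
      refine mul_le_mul ?_ h4 h5.le (by positivity)
      push_cast
      linarith
    refine h7.trans (le_of_eq ?_)
    rw [h6]
    field_simp
  · intro m n hm hmn
    unfold gb
    have hm1 : (1 : ℝ) ≤ m := by exact_mod_cast hm
    have hmn' : (m : ℝ) ≤ n := by exact_mod_cast hmn
    have h1 : 0 < Real.log ((m + 1 : ℕ) : ℝ) := Real.log_pos (by push_cast; linarith)
    have h2 : Real.log ((m + 1 : ℕ) : ℝ) ≤ Real.log ((n + 1 : ℕ) : ℝ) :=
      Real.log_le_log (by positivity) (by push_cast; linarith)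
    refine one_div_le_one_div_of_le (by positivity) ?_
    refine mul_le_mul (by push_cast; linarith) (Real.rpow_le_rpow h1.le h2 (by linarith)) (by positivity) (by positivity)

theorem gb_one_not : ¬ Summable (gb 1) := by
  rw [← summable_nat_add_iff 1]
  have hl2 : 0 < Real.log 2 := Real.log_pos (by norm_num)
  have hnn : ∀ n : ℕ, 0 ≤ gb 1 (n + 1) := by
    intro n
    unfold gb
    have := Real.log_natCast_nonneg (n + 1)
    positivity
  rw [← summable_condensed_iff_of_nonneg hnn]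
  · intro hcon
    have h1 : ¬ Summable (fun k : ℕ => 1 / ((k : ℝ) + 1)) := by
      intro h
      have h2 := (summable_nat_add_iff (f := fun k : ℕ => 1 / (k : ℝ)) 1).1 (h.congr (fun k => by push_cast; rfl))
      exact Real.not_summable_one_div_natCast h2
    apply h1
    refine Summable.of_nonneg_of_le (fun k => by positivity) (fun k => ?_) (hcon.mul_left (2 * Real.log 2))
    unfold gb
    rw [Real.rpow_one]
    have h3 : Real.log ((2 ^ k + 1 : ℕ) : ℝ) ≤ ((k : ℝ) + 1) * Real.log 2 := by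
      have h4 : Real.log ((2 ^ k + 1 : ℕ) : ℝ) ≤ Real.log ((2 : ℝ) ^ (k + 1)) := by
        refine Real.log_le_log (by positivity) ?_
        push_cast
        have : (1 : ℝ) ≤ 2 ^ k := one_le_pow₀ (by norm_num)
        rw [pow_succ]
        linarith
      rw [Real.log_pow] at h4
      push_cast at h4 ⊢
      exact h4
    have h4 : (0 : ℝ) < Real.log ((2 ^ k + 1 : ℕ) : ℝ) := by
      refine Real.log_pos ?_
      push_cast
      have : (1 : ℝ) ≤ 2 ^ k := one_le_pow₀ (by norm_num)
      linarith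
    have h5 : ((2 ^ k + 1 : ℕ) : ℝ) ≤ 2 * 2 ^ k := by
      push_cast
      have : (1 : ℝ) ≤ 2 ^ k := one_le_pow₀ (by norm_num)
      linarith
    have h6 : (0 : ℝ) < ((2 ^ k + 1 : ℕ) : ℝ) := by positivity
    rw [show 2 * Real.log 2 * (2 ^ k * (1 / (((2 ^ k + 1 : ℕ) : ℝ) * Real.log ((2 ^ k + 1 : ℕ) : ℝ)))) =
      (2 * 2 ^ k * Real.log 2) / (((2 ^ k + 1 : ℕ) : ℝ) * Real.log ((2 ^ k + 1 : ℕ) : ℝ)) by ring,
      div_le_div_iff₀ (by positivity) (by positivity), one_mul]
    calc ((2 ^ k + 1 : ℕ) : ℝ) * Real.log ((2 ^ k + 1 : ℕ) : ℝ)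
        ≤ (2 * 2 ^ k) * (((k : ℝ) + 1) * Real.log 2) := mul_le_mul h5 h3 h4.le (by positivity)
      _ = _ := by ring
  · intro m n hm hmn
    unfold gb
    rw [Real.rpow_one, Real.rpow_one]
    have hm1 : (1 : ℝ) ≤ m := by exact_mod_cast hm
    have hmn' : (m : ℝ) ≤ n := by exact_mod_cast hmn
    have h1 : 0 < Real.log ((m + 1 : ℕ) : ℝ) := Real.log_pos (by push_cast; linarith)
    have h2 : Real.log ((m + 1 : ℕ) : ℝ) ≤ Real.log ((n + 1 : ℕ) : ℝ) :=
      Real.log_le_log (by positivity) (by push_cast; linarith)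
    refine one_div_le_one_div_of_le (by positivity) ?_
    exact mul_le_mul (by push_cast; linarith) h2 h1.le (by positivity)

theorem gb_not_summable {b : ℝ} (hb : b ≤ 1) : ¬ Summable (gb b) := by
  intro hcon
  apply gb_one_not
  refine Summable.of_norm_bounded_eventually_nat hcon ?_
  filter_upwards [eventually_ge_atTop 3] with n hn
  have h1 := log_one hn
  have hn0 : (0 : ℝ) < n := by
    have : (3 : ℝ) ≤ n := by exact_mod_cast hn
    linarith
  have h2 : 0 ≤ gb 1 n := by
    unfold gb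
    positivity
  rw [Real.norm_of_nonneg h2]
  unfold gb
  refine one_div_le_one_div_of_le (by positivity) ?_
  refine mul_le_mul_of_nonneg_left ?_ hn0.le
  exact Real.rpow_le_rpow_of_exponent_le h1 hb

end Pool.Agent.Q106.ZO
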