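import Pool.Agent.Q106.ZO.Sys
import Pool.Agent.Q106.ZO.Ser
import Pool.Agent.Q106.MD.UMean

/-!
# Constellations just after the powers
-/

set_option autoImplicit false

namespace Pool.Agent.Q106.ZO

open Finset MeasureTheory ProbabilityTheory Filter Pool.Agent.Q120.GM Pool.Agent.Q106.UR Pool.Agent.Q106.LF
open Pool.Agent.Q106.MD
open scoped Topology

/-- The translates of `H` as a system of forms. -/
def lf (H : Finset ℕ) : Finset (ℕ × ℕ) := H.image (fun h => (1, h))

theorem lf_nonempty {H : Finset ℕ} (h0 : 0 ∈ H) : (lf H).Nonempty := ⟨(1, 0), mem_image.2 ⟨0, h0, rfl⟩⟩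

theorem lf_one {H : Finset ℕ} : ∀ f ∈ lf H, 1 ≤ f.1 := by
  intro f hf
  obtain ⟨h, _, rfl⟩ := mem_image.1 hf
  exact le_refl _

theorem vals_lf (H : Finset ℕ) (m : ℕ) : vals (lf H) m = tl m H := by
  unfold vals lf tl
  rw [image_image]
  refine image_congr (fun h _ => ?_)
  show 1 * m + h = m + h
  rw [one_mul]

theorem arg_lf {H : Finset ℕ} (h0 : 0 ∈ H) (u v : ℕ) : arg (lf H) (Ioo u v) = Ico (u + 1) (v - H.sup id) := by
  ext m
  rw [mem_arg (lf_nonempty h0) lf_one, mem_Ico]
  have h1 : (∀ f ∈ lf H, f.1 * m + f.2 ∈ Ioo u v) ↔ ∀ h ∈ H, u < m + h ∧ m + h < v := by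
    constructor
    · intro h b hb
      have := h (1, b) (mem_image.2 ⟨b, hb, rfl⟩)
      rw [mem_Ioo, one_mul] at this
      exact this
    · intro h f hf
      obtain ⟨b, hb, rfl⟩ := mem_image.1 hf
      rw [mem_Ioo, one_mul]
      exact h b hb
  rw [h1]
  constructor
  · intro h
    have h2 := (h 0 h0).1
    obtain ⟨b, hb, e⟩ := Finset.exists_mem_eq_sup H ⟨0, h0⟩ id
    have h3 := (h b hb).2
    rw [e]
    simp only [id]
    omega
  · rintro ⟨h2, h3⟩ b hb
    have h4 : b ≤ H.sup id := Finset.le_sup (f := id) hb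
    omega

/-- The length. -/
noncomputable def Lw (Q : ℕ) (H : Finset ℕ) (e : ℕ) (a : ℝ) (n : ℕ) : ℝ :=
  (e : ℝ) ^ H.card / sing Q H * Real.log n ^ H.card * (Real.log n + a * Real.log (Real.log n))

/-- The interval after `n^e`. -/
noncomputable def Bw (Q : ℕ) (H : Finset ℕ) (e : ℕ) (a : ℝ) (n : ℕ) : Finset ℕ :=
  Ioo (n ^ e) ⌈(n : ℝ) ^ e + Lw Q H e a n⌉₊

/-- The target. -/
noncomputable def tn (a : ℝ) (n : ℕ) : ℝ := Real.log n + a * Real.log (Real.log n)

theorem tn_bounds (a : ℝ) : ∀ᶠ n : ℕ in atTop, Real.log n / 2 ≤ tn a n ∧ tn a n ≤ 2 * Real.log n := by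
  filter_upwards [ev_loglog (2 * |a|), log_tendsto.eventually_ge_atTop 1] with n hn h1
  have h2 : 0 ≤ Real.log (Real.log n) := Real.log_nonneg h1
  have h3 : |a * Real.log (Real.log n)| ≤ Real.log n / 2 := by
    rw [abs_mul, abs_of_nonneg h2]
    linarith
  rw [abs_le] at h3
  unfold tn
  constructor <;> linarith [h3.1, h3.2]

theorem Lw_eq {Q : ℕ} {H : Finset ℕ} (hs : 0 < sing Q H) {e : ℕ} (he : 1 ≤ e) (a : ℝ) {n : ℕ} (hn : 0 < Real.log n) :
    sing Q H * Lw Q H e a n / ((e : ℝ) * Real.log n) ^ H.card = tn a n := by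
  have he0 : (0 : ℝ) < e := by exact_mod_cast he
  unfold Lw tn
  rw [mul_pow]
  field_simp

theorem Lw_small {Q : ℕ} {H : Finset ℕ} (hs : 0 < sing Q H) (e : ℕ) (a : ℝ) (C : ℝ) : ∀ᶠ n : ℕ in atTop,
    0 ≤ Lw Q H e a n ∧ C * ((Lw Q H e a n + 1) * Real.log n) ≤ n := by
  obtain ⟨c, hc⟩ : ∃ c, c = (e : ℝ) ^ H.card / sing Q H := ⟨_, rfl⟩
  have hc0 : 0 ≤ c := by rw [hc]; positivity
  have h1 := ev_log_pow (H.card + 2) (show (0 : ℝ) < 1 / (2 * (|C| + 1) * (2 * c + 1)) by positivity)
  filter_upwards [h1, tn_bounds a, log_tendsto.eventually_ge_atTop 1, eventually_ge_atTop 1] with n h1 h2 h3 h4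
  have hL : Lw Q H e a n = c * Real.log n ^ H.card * tn a n := by
    unfold Lw tn
    rw [hc]
  have hn0 : (0 : ℝ) ≤ n := Nat.cast_nonneg n
  have hp : (1 : ℝ) ≤ Real.log n ^ H.card := one_le_pow₀ h3
  have ht : 0 ≤ tn a n := by linarith [h2.1]
  constructor
  · rw [hL]
    positivity
  · have h5 : Lw Q H e a n ≤ 2 * c * Real.log n ^ (H.card + 1) := by
      rw [hL, pow_succ]
      have := mul_le_mul_of_nonneg_left h2.2 (show 0 ≤ c * Real.log n ^ H.card by positivity)
      linarith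
    have h6 : (1 : ℝ) ≤ Real.log n ^ (H.card + 1) := one_le_pow₀ h3
    have h7 : (Lw Q H e a n + 1) * Real.log n ≤ (2 * c + 1) * Real.log n ^ (H.card + 2) := by
      rw [pow_succ _ (H.card + 1), ← mul_assoc]
      refine mul_le_mul_of_nonneg_right ?_ (by linarith)
      rw [add_mul, one_mul]
      linarith
    have h8 : 0 ≤ (Lw Q H e a n + 1) * Real.log n := by
      rw [hL]
      positivity
    have h9 : C * ((Lw Q H e a n + 1) * Real.log n) ≤ (|C| + 1) * ((Lw Q H e a n + 1) * Real.log n) :=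
      mul_le_mul_of_nonneg_right (by linarith [le_abs_self C]) h8
    have h10 := mul_le_mul_of_nonneg_left h7 (show 0 ≤ |C| + 1 by positivity)
    have h11 : (|C| + 1) * ((2 * c + 1) * Real.log n ^ (H.card + 2)) ≤ n := by
      have := mul_le_mul_of_nonneg_left h1 (show 0 ≤ (|C| + 1) * (2 * c + 1) by positivity)
      have e1 : (|C| + 1) * (2 * c + 1) * (1 / (2 * (|C| + 1) * (2 * c + 1)) * n) = n / 2 := by
        field_simp
      rw [e1] at this
      linarith
    linarith

/-- **The mean number of constellations after the powers.** -/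
theorem mean_pw {Q : ℕ} (hQ : 1 ≤ Q) {H : Finset ℕ} (h0 : 0 ∈ H) (hs : 0 < sing Q H) {e : ℕ} (he : 1 ≤ e) (a : ℝ) :
    ∃ C : ℝ, 0 ≤ C ∧ ∀ᶠ n : ℕ in atTop,
      |mn (level Q) (arg (lf H) (Bw Q H e a n)) (vals (lf H)) - tn a n| ≤ C := by
  obtain ⟨d, hd⟩ : ∃ d, d = H.sup id := ⟨_, rfl⟩
  obtain ⟨k, hk⟩ : ∃ k, k = H.card := ⟨_, rfl⟩
  refine ⟨Q + sing Q H * (d + 2) + 1, by positivity, ?_⟩
  have he0 : (1 : ℝ) ≤ e := by exact_mod_cast he
  filter_upwards [Lw_small hs e a (2 * k), Lw_small hs e a 1, tn_bounds a, log_tendsto.eventually_ge_atTop 1,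
    log_tendsto.eventually_ge_atTop (qq Q), eventually_ge_atTop 1,
    tendsto_natCast_atTop_atTop.eventually_ge_atTop ((d : ℝ) + 2 : ℝ),
    (tendsto_atTop.1 (log_tendsto.const_mul_atTop (show (0:ℝ) < 1 / 2 by norm_num))) (sing Q H * (d + 2) + 1)]
    with n h1 h1' h2 h3 h4 h5 h6 h7
  obtain ⟨L, hL⟩ : ∃ L, L = Lw Q H e a n := ⟨_, rfl⟩
  rw [← hL] at h1 h1'
  have hL0 : 0 ≤ L := h1.1
  obtain ⟨u, hu⟩ : ∃ u : ℕ, u = n ^ e := ⟨_, rfl⟩
  obtain ⟨v, hv⟩ : ∃ v : ℕ, v = ⌈(n : ℝ) ^ e + L⌉₊ := ⟨_, rfl⟩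
  have hn1 : (1 : ℝ) ≤ n := by exact_mod_cast h5
  have hur : (u : ℝ) = (n : ℝ) ^ e := by rw [hu]; push_cast; rfl
  have hun : (n : ℝ) ≤ u := by
    rw [hur]
    exact le_self_pow₀ hn1 (by omega)
  have hu0 : (0 : ℝ) < u := by linarith
  have hv1 : (u : ℝ) + L ≤ v := by
    rw [hv, hur]
    exact Nat.le_ceil _
  have hv2 : (v : ℝ) < u + L + 1 := by
    rw [hv, hur]
    exact Nat.ceil_lt_add_one (by positivity)
  have hlogu : Real.log u = e * Real.log n := by rw [hur, Real.log_pow]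
  have ht0 : Real.log n ≤ Real.log u := by
    rw [hlogu]
    nlinarith
  have hlu1 : Real.log u ≤ Real.log ((u + 1 : ℕ) : ℝ) := Real.log_le_log (by linarith) (by push_cast; linarith)
  have hsL : sing Q H * L / (Real.log u) ^ k = tn a n := by
    rw [hlogu, hL, hk]
    exact Lw_eq hs he a (by linarith)
  have hlpow : (1 : ℝ) ≤ Real.log u ^ k := one_le_pow₀ (by linarith)
  -- the length is large
  have hLd : (d : ℝ) + 2 ≤ L := by
    have e1 : sing Q H * (d + 2) + 1 ≤ tn a n := by linarith [h2.1]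
    rw [← hsL] at e1
    have e2 : sing Q H * L / Real.log u ^ k ≤ sing Q H * L := div_le_self (by positivity) hlpow
    have e3 : sing Q H * (d + 2) ≤ sing Q H * L := by linarith
    exact le_of_mul_le_mul_left e3 hs
  have huv : u + 1 ≤ v - d := by
    have e1 : (u : ℝ) + 1 + d ≤ v := by linarith
    have e2 : u + 1 + d ≤ v := by exact_mod_cast e1
    omega
  have hdv : d ≤ v := by omega
  have hvd : ((v - d : ℕ) : ℝ) = (v : ℝ) - d := Nat.cast_sub hdv
  have hmn : mn (level Q) (arg (lf H) (Bw Q H e a n)) (vals (lf H)) = ∑ m ∈ Ico (u + 1) (v - d), PP Q H m := by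
    unfold mn Bw
    rw [← hL, ← hv, ← hu, arg_lf h0, ← hd]
    refine sum_congr rfl (fun m _ => ?_)
    rw [vals_lf]
    rfl
  have hmg := mean_g hQ H huv (by linarith) (by linarith)
  rw [← hmn] at hmg
  have hu2 : 2 ≤ u + 1 := by
    have : (1 : ℝ) ≤ u := by linarith
    have : 1 ≤ u := by exact_mod_cast this
    omega
  have hlu0 : 0 < Real.log u := by linarith
  have hspos : (0 : ℝ) ≤ sing Q H := hs.le
  -- the upper bound
  have hup : sing Q H * lg H (u + 1) (v - d) ≤ tn a n + sing Q H := by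
    have e1 := lg_le (S := H) hu2 huv
    have e2 := gp_le (S := H) (m := u + 1) hlu0 (fun b _ => by
      have : (0 : ℝ) ≤ b := Nat.cast_nonneg b
      refine Real.log_le_log (by linarith) ?_
      push_cast
      linarith)
    have e3 : ((v - d : ℕ) : ℝ) - ((u + 1 : ℕ) : ℝ) ≤ L := by
      rw [hvd]
      push_cast
      have : (0 : ℝ) ≤ d := Nat.cast_nonneg d
      linarith
    have e4 : 0 ≤ ((v - d : ℕ) : ℝ) - ((u + 1 : ℕ) : ℝ) := by
      have : ((u + 1 : ℕ) : ℝ) ≤ ((v - d : ℕ) : ℝ) := by exact_mod_cast huv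
      linarith
    have e5 : lg H (u + 1) (v - d) ≤ L * (Real.log u)⁻¹ ^ k := by
      rw [hk]
      refine e1.trans (mul_le_mul e3 e2 ?_ (by linarith))
      exact (gp_pos hu2).le
    have e6 := mul_le_mul_of_nonneg_left e5 hspos
    have e7 : sing Q H * (L * (Real.log u)⁻¹ ^ k) = tn a n := by
      rw [← hsL, inv_pow]
      ring
    linarith
  -- the lower bound
  have hlow : tn a n - sing Q H * (d + 2) - 1 ≤ sing Q H * lg H (u + 1) (v - d) := by
    obtain ⟨ε, hε⟩ : ∃ ε, ε = (L + 1) / (u * Real.log u) := ⟨_, rfl⟩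
    have hε0 : 0 ≤ ε := by rw [hε]; positivity
    have e1 := lg_ge (S := H) hu2 huv
    have hvd2 : 2 ≤ v - d := hu2.trans huv
    have e2 : ∀ b ∈ H, Real.log (((v - d : ℕ) : ℝ) + b) ≤ Real.log u * (1 + ε) := by
      intro b hb
      have hbd : b ≤ d := by
        rw [hd]
        exact Finset.le_sup (f := id) hb
      have hbd' : (b : ℝ) ≤ d := by exact_mod_cast hbd
      have g1 : ((v - d : ℕ) : ℝ) + b ≤ u * (1 + (L + 1) / u) := by
        rw [hvd]
        have : (u : ℝ) * (1 + (L + 1) / u) = u + L + 1 := by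
          have : (u : ℝ) ≠ 0 := by linarith
          field_simp
          ring
        linarith
      have g0 : (0 : ℝ) < ((v - d : ℕ) : ℝ) + b := by
        have : (2 : ℝ) ≤ ((v - d : ℕ) : ℝ) := by exact_mod_cast hvd2
        have : (0 : ℝ) ≤ b := Nat.cast_nonneg b
        linarith
      have g2 := Real.log_le_log g0 g1
      rw [Real.log_mul (by linarith) (by positivity)] at g2
      have g3 : Real.log (1 + (L + 1) / u) ≤ (L + 1) / u := by
        have := Real.log_le_sub_one_of_pos (show 0 < 1 + (L + 1) / (u : ℝ) by positivity)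
        linarith
      have g4 : Real.log u * ε = (L + 1) / u := by
        rw [hε]
        field_simp
      linarith
    have e3 := gp_ge (S := H) hvd2 (t := Real.log u * (1 + ε)) (by positivity) e2
    have e4 : L - (d + 1) ≤ ((v - d : ℕ) : ℝ) - ((u + 1 : ℕ) : ℝ) := by
      rw [hvd]
      push_cast
      linarith
    have e5 : 0 ≤ L - (d + 1) := by linarith
    have e6 : (L - (d + 1)) * (Real.log u * (1 + ε))⁻¹ ^ k ≤ lg H (u + 1) (v - d) := by
      rw [hk]
      exact (mul_le_mul e4 e3 (by positivity) (by linarith)).trans e1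
    have e7 : (Real.log u)⁻¹ ^ k * (1 - k * ε) ≤ (Real.log u * (1 + ε))⁻¹ ^ k := by
      rw [mul_inv, mul_pow]
      refine mul_le_mul_of_nonneg_left ?_ (by positivity)
      rw [inv_pow]
      have g3 : (1 + ε) ^ k * (1 - k * ε) ≤ 1 := by
        by_cases hkε : 1 - k * ε ≤ 0
        · have : 0 ≤ (1 + ε) ^ k := by positivity
          nlinarith
        · push Not at hkε
          have g4 := one_add_mul_le_pow (show (-2 : ℝ) ≤ -ε by
            by_contra hcon
            push Not at hcon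
            rcases Nat.eq_zero_or_pos k with hk0 | hk0
            · have : k ≠ 0 := by
                rw [hk]
                exact (card_pos.2 ⟨0, h0⟩).ne'
              exact this hk0
            · have : (1 : ℝ) ≤ k := by exact_mod_cast hk0
              nlinarith) k
          have g5 : (1 : ℝ) - k * ε ≤ (1 - ε) ^ k := by
            have : (1 : ℝ) + k * (-ε) = 1 - k * ε := by ring
            rw [this, ← sub_eq_add_neg] at g4
            exact g4
          have g6 : (1 + ε) ^ k * (1 - k * ε) ≤ (1 + ε) ^ k * (1 - ε) ^ k :=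
            mul_le_mul_of_nonneg_left g5 (by positivity)
          rw [← mul_pow] at g6
          refine g6.trans ?_
          have hk1 : (1 : ℝ) ≤ k := by
            have : 1 ≤ k := by
              rw [hk]
              exact card_pos.2 ⟨0, h0⟩
            exact_mod_cast this
          have hε1 : ε ≤ 1 := by nlinarith
          refine pow_le_one₀ (by nlinarith) (by nlinarith)
      have g4 : 0 < (1 + ε) ^ k := by positivity
      rw [← one_div, le_div_iff₀ g4]
      linarith
    have e8 : (L - (d + 1)) * ((Real.log u)⁻¹ ^ k * (1 - k * ε)) ≤ lg H (u + 1) (v - d) :=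
      (mul_le_mul_of_nonneg_left e7 e5).trans e6
    have e9 := mul_le_mul_of_nonneg_left e8 hspos
    have e10 : sing Q H * (L * (Real.log u)⁻¹ ^ k) = tn a n := by
      rw [← hsL, inv_pow]
      ring
    have e11 : (Real.log u)⁻¹ ^ k ≤ 1 := by
      rw [inv_pow]
      exact inv_le_one_of_one_le₀ hlpow
    have e12 : 0 ≤ (Real.log u)⁻¹ ^ k := by positivity
    -- `k ε t ≤ 1`
    have e13 : k * ε * tn a n ≤ 1 := by
      have g1 : (k : ℝ) * ε * tn a n ≤ k * ε * (2 * Real.log n) :=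
        mul_le_mul_of_nonneg_left h2.2 (by positivity)
      have g2 : (k : ℝ) * ε * (2 * Real.log n) = (2 * k * ((L + 1) * Real.log n)) / (u * Real.log u) := by
        rw [hε]
        ring
      have g3 : (2 * k * ((L + 1) * Real.log n)) / (u * Real.log u) ≤ 1 := by
        rw [div_le_one (by positivity)]
        have : (u : ℝ) ≤ u * Real.log u := by nlinarith
        linarith [h1.2]
      linarith
    have e14 : sing Q H * ((L - (d + 1)) * ((Real.log u)⁻¹ ^ k * (1 - k * ε))) =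
        tn a n - k * ε * tn a n - sing Q H * (d + 1) * (Real.log u)⁻¹ ^ k * (1 - k * ε) := by
      rw [← e10]
      ring
    have e15 : sing Q H * (d + 1) * (Real.log u)⁻¹ ^ k * (1 - k * ε) ≤ sing Q H * (d + 2) := by
      have g1 : 1 - (k : ℝ) * ε ≤ 1 := by
        have : 0 ≤ (k : ℝ) * ε := by positivity
        linarith
      have g2 : sing Q H * (d + 1) * (Real.log u)⁻¹ ^ k * (1 - k * ε) ≤ sing Q H * (d + 1) * (Real.log u)⁻¹ ^ k * 1 :=
        mul_le_mul_of_nonneg_left g1 (by positivity)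
      have g3 : sing Q H * (d + 1) * (Real.log u)⁻¹ ^ k ≤ sing Q H * (d + 1) * 1 :=
        mul_le_mul_of_nonneg_left e11 (by positivity)
      linarith
    linarith
  have hd0 : (0 : ℝ) ≤ d := Nat.cast_nonneg d
  have hsd : 0 ≤ sing Q H * (d : ℝ) := by positivity
  rw [abs_le] at hmg ⊢
  constructor <;> linarith [hmg.1, hmg.2]

end Pool.Agent.Q106.ZO
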