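import Pool.Agent.Q106.ZO.Pw

/-!
# The threshold for constellations just after the powers
-/

set_option autoImplicit false

namespace Pool.Agent.Q106.ZO

open Finset MeasureTheory ProbabilityTheory Filter Pool.Agent.Q120.GM Pool.Agent.Q106.UR Pool.Agent.Q106.LF
open Pool.Agent.Q106.MD
open scoped Topology

theorem exp_tn (a : ℝ) {n : ℕ} (hn : 1 ≤ n) (hl : 0 < Real.log n) :
    Real.exp (-tn a n) = 1 / ((n : ℝ) * Real.log n ^ a) := by
  have hn0 : (0 : ℝ) < n := by exact_mod_cast hn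
  unfold tn
  rw [Real.exp_neg, Real.exp_add, Real.exp_log hn0, one_div, Real.rpow_def_of_pos hl, mul_comm a]

/-- The Poisson probability along the powers. -/
theorem ps_pw {Q : ℕ} (hQ : 1 ≤ Q) {H : Finset ℕ} (h0 : 0 ∈ H) (hs : 0 < sing Q H) {e : ℕ} (he : 1 ≤ e) (a : ℝ)
    (hE : ∀ n, 0 ≤ mn (level Q) (arg (lf H) (Bw Q H e a n)) (vals (lf H))) (r : ℕ) :
    ∃ c C : ℝ, 0 < c ∧ 0 < C ∧ ∀ᶠ n : ℕ in atTop,
      c * gb (a - r) n ≤ ps r (mn (level Q) (arg (lf H) (Bw Q H e a n)) (vals (lf H))) ∧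
      ps r (mn (level Q) (arg (lf H) (Bw Q H e a n)) (vals (lf H))) ≤ C * gb (a - r) n := by
  obtain ⟨B, hB0, hB⟩ := mean_pw hQ h0 hs he a
  refine ⟨Real.exp (-B) * (1 / 4) ^ r / (2 ^ r * r.factorial), ((r : ℝ) + 1) * Real.exp B * 4 ^ r, ?_, by positivity, ?_⟩
  · have : (0 : ℝ) < r.factorial := by exact_mod_cast Nat.factorial_pos r
    positivity
  filter_upwards [hB, tn_bounds a, log_tendsto.eventually_ge_atTop (4 * B + 4), eventually_ge_atTop 1] with n h1 h2 h3 h4
  obtain ⟨E, hEd⟩ : ∃ E, E = mn (level Q) (arg (lf H) (Bw Q H e a n)) (vals (lf H)) := ⟨_, rfl⟩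
  have hE0 := hE n
  rw [← hEd] at h1 hE0 ⊢
  rw [abs_le] at h1
  have hl : 1 ≤ Real.log n := by linarith
  have hl0 : 0 < Real.log n := by linarith
  have hn0 : (0 : ℝ) < n := by exact_mod_cast h4
  have e1 : 1 + E ≤ 4 * Real.log n := by linarith [h1.2, h2.2]
  have e2 : 1 / 4 * Real.log n ≤ 1 + E := by linarith [h1.1, h2.1]
  have e3 : Real.exp (-E) ≤ Real.exp B * Real.exp (-tn a n) := by
    rw [← Real.exp_add]
    exact Real.exp_le_exp.2 (by linarith [h1.1])
  have e4 : Real.exp (-B) * Real.exp (-tn a n) ≤ Real.exp (-E) := by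
    rw [← Real.exp_add]
    exact Real.exp_le_exp.2 (by linarith [h1.2])
  have e5 : Real.exp (-tn a n) * Real.log n ^ r = gb (a - r) n := by
    rw [exp_tn a h4 hl0]
    unfold gb
    rw [Real.rpow_sub hl0, Real.rpow_natCast]
    have : 0 < Real.log n ^ a := Real.rpow_pos_of_pos hl0 a
    field_simp
  have hf : (0 : ℝ) < r.factorial := by exact_mod_cast Nat.factorial_pos r
  have hX := Real.exp_pos (-tn a n)
  constructor
  · have e6 : (1 / 4 * Real.log n) ^ r ≤ 2 ^ r * r.factorial * Gp r E :=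
      (pow_le_pow_left₀ (by positivity) e2 r).trans (pow_le_Gp hE0 r)
    rw [mul_pow] at e6
    have e7 : (1 / 4) ^ r * Real.log n ^ r / (2 ^ r * r.factorial) ≤ Gp r E := by
      rw [div_le_iff₀ (by positivity)]
      linarith
    have e8 : (Real.exp (-B) * Real.exp (-tn a n)) * ((1 / 4) ^ r * Real.log n ^ r / (2 ^ r * r.factorial)) ≤
        Real.exp (-E) * Gp r E := mul_le_mul e4 e7 (by positivity) (Real.exp_pos _).le
    unfold ps
    refine le_trans (le_of_eq ?_) e8
    rw [← e5]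
    ring
  · have e6 : Gp r E ≤ ((r : ℝ) + 1) * (4 ^ r * Real.log n ^ r) := by
      refine (Gp_le_pow hE0 r).trans (mul_le_mul_of_nonneg_left ?_ (by positivity))
      rw [← mul_pow]
      exact pow_le_pow_left₀ (by linarith) e1 r
    have e8 : Real.exp (-E) * Gp r E ≤ (Real.exp B * Real.exp (-tn a n)) * (((r : ℝ) + 1) * (4 ^ r * Real.log n ^ r)) :=
      mul_le_mul e3 e6 (Gp_nonneg hE0 r) (by positivity)
    unfold ps
    refine e8.trans (le_of_eq ?_)
    rw [← e5]
    ring

variable {Ω : Type*} [MeasurableSpace Ω] {μ : Measure Ω} [IsProbabilityMeasure μ] {A : Ω → Set ℕ}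

/-- **The threshold after the powers.** -/
theorem pw_law {Q : ℕ} (hA : IsModel μ (level Q) A) (hQ : 1 ≤ Q) {H : Finset ℕ} (h0 : 0 ∈ H) (hs : 0 < sing Q H) {e : ℕ}
    (he : 2 ≤ e) (a : ℝ) (r : ℕ) :
    ((r : ℝ) + 1 < a → ∀ᵐ ω ∂μ, ∀ᶠ n in atTop, ω ∉ few A (arg (lf H) (Bw Q H e a n)) (vals (lf H)) r) ∧
    (a ≤ (r : ℝ) + 1 → ∀ᵐ ω ∂μ, ∃ᶠ n in atTop, ω ∈ few A (arg (lf H) (Bw Q H e a n)) (vals (lf H)) r) := by
  have hE : ∀ n, 0 ≤ mn (level Q) (arg (lf H) (Bw Q H e a n)) (vals (lf H)) := fun n => mn_nonneg hA _ _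
  obtain ⟨c, C, hc, hC, hcC⟩ := ps_pw hQ h0 hs (show 1 ≤ e by omega) a hE r
  obtain ⟨n₀, hn₀⟩ := eventually_atTop.1 ((Lw_small hs e a 1).and (log_tendsto.eventually_ge_atTop 1))
  obtain ⟨B, hB⟩ : ∃ B : ℕ → Finset ℕ, B = fun n => if n₀ ≤ n then Bw Q H e a n else ∅ := ⟨_, rfl⟩
  have hBe : ∀ n, n₀ ≤ n → B n = Bw Q H e a n := by
    intro n hn
    rw [hB]
    exact if_pos hn
  have hdisj' : ∀ i j, i < j → Disjoint (B i) (B j) := by
    intro i j hij
    by_cases hi : n₀ ≤ i
    · rw [hBe i hi, hBe j (by omega), Finset.disjoint_left]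
      intro x hx hx'
      unfold Bw at hx hx'
      rw [mem_Ioo] at hx hx'
      obtain ⟨⟨_, h1⟩, h2⟩ := hn₀ i hi
      have h3 : Lw Q H e a i ≤ i := by
        have h4 : (Lw Q H e a i + 1) * 1 ≤ (Lw Q H e a i + 1) * Real.log i :=
          mul_le_mul_of_nonneg_left h2 (by linarith [(hn₀ i hi).1.1])
        linarith
      have h4 : (x : ℝ) < (i : ℝ) ^ e + Lw Q H e a i := Nat.lt_ceil.1 hx.2
      have h5 : i ^ e + i ≤ (i + 1) ^ e := by
        obtain ⟨e', rfl⟩ : ∃ e', e = e' + 2 := ⟨e - 2, by omega⟩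
        have h6 : i ^ (e' + 1) ≤ (i + 1) ^ (e' + 1) := Nat.pow_le_pow_left (by omega) _
        have h7 : i ≤ i ^ (e' + 1) := Nat.le_self_pow (by omega) i
        calc i ^ (e' + 2) + i ≤ i ^ (e' + 1) * i + i ^ (e' + 1) := by
              rw [pow_succ i (e' + 1)]
              omega
          _ = i ^ (e' + 1) * (i + 1) := by ring
          _ ≤ (i + 1) ^ (e' + 1) * (i + 1) := Nat.mul_le_mul_right _ h6
          _ = (i + 1) ^ (e' + 2) := by rw [pow_succ (i + 1) (e' + 1)]
      have h6 : (i + 1) ^ e ≤ j ^ e := Nat.pow_le_pow_left (by omega) _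
      have h7 : ((i : ℝ)) ^ e + i < x := by
        have h8 : i ^ e + i < x := by omega
        exact_mod_cast h8
      linarith
    · rw [hB]
      simp only [if_neg hi]
      exact disjoint_empty_left _
  have hdisj : ∀ i j, i ≠ j → Disjoint (B i) (B j) := by
    intro i j hij
    rcases Nat.lt_or_gt_of_ne hij with h | h
    · exact hdisj' i j h
    · exact (hdisj' j i h).symm
  have hSq := sq_one (Q := Q) (lf_nonempty h0) lf_one hdisj
  obtain ⟨c', C', hc', _, hlaw⟩ := zero_one hA (K := ((lf H).card : ℝ) ^ 2 + 1) (q := qq Q) (by positivity) (qq_pos hQ).le r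
  obtain ⟨hl1, hl2⟩ := hlaw _ _ _ hSq
  have hev : ∀ᶠ n in atTop, B n = Bw Q H e a n := by
    filter_upwards [eventually_ge_atTop n₀] with n hn
    exact hBe n hn
  constructor
  · intro ha
    have hsum : Summable (fun n => ps r (mn (level Q) (arg (lf H) (B n)) (vals (lf H)))) := by
      refine Summable.of_norm_bounded_eventually_nat ((gb_summable (b := a - r) (by linarith)).mul_left C) ?_
      filter_upwards [hcC, hev] with n h1 h2
      rw [h2, Real.norm_of_nonneg (ps_nonneg (hE n) r)]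
      exact h1.2
    filter_upwards [hl1 hsum] with ω hω
    filter_upwards [hω, hev] with n h1 h2
    rwa [h2] at h1
  · intro ha
    have hns : ¬ Summable (fun n => ps r (mn (level Q) (arg (lf H) (B n)) (vals (lf H)))) := by
      intro hcon
      apply gb_not_summable (b := a - r) (by linarith)
      refine Summable.of_norm_bounded_eventually_nat (hcon.mul_left (1 / c)) ?_
      filter_upwards [hcC, hev, eventually_ge_atTop 1] with n h1 h2 h3
      have h4 : 0 ≤ gb (a - r) n := by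
        unfold gb
        have := Real.log_natCast_nonneg n
        positivity
      rw [h2, Real.norm_of_nonneg h4, one_div, ← div_eq_inv_mul, le_div_iff₀ hc]
      linarith [h1.1]
    have hS := (not_summable_iff_tendsto_nat_atTop_of_nonneg (fun n => ps_nonneg (mn_nonneg hA _ _) r)).1 hns
    filter_upwards [hl2 hns] with ω hω
    by_contra hcon
    rw [not_frequently] at hcon
    obtain ⟨N, hN⟩ := eventually_atTop.1 (hcon.and hev)
    have h1 : ∀ M, fl A (vals (lf H)) (fun n => arg (lf H) (B n)) r M ω ≤ N := by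
      intro M
      unfold fl Pool.Agent.Q120.NC.cnt
      have h2 : ∀ n ∈ range M, (few A (arg (lf H) (B n)) (vals (lf H)) r).indicator (fun _ => (1 : ℝ)) ω ≤
          if n < N then 1 else 0 := by
        intro n _
        by_cases hn : n < N
        · rw [if_pos hn]
          exact Set.indicator_le_self' (fun _ _ => zero_le_one) ω
        · rw [if_neg hn]
          obtain ⟨h3, h4⟩ := hN n (by omega)
          rw [Set.indicator_of_notMem]
          rw [h4]
          exact h3
      refine (sum_le_sum h2).trans ?_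
      rw [sum_ite, sum_const_zero, add_zero, sum_const, nsmul_eq_mul, mul_one]
      have h5 : (filter (fun n => n < N) (range M)).card ≤ N := by
        refine (card_le_card (t := range N) (fun n hn => ?_)).trans (by rw [card_range])
        rw [mem_filter] at hn
        exact mem_range.2 hn.2
      exact_mod_cast h5
    obtain ⟨M, h2, h3⟩ := (hω.and (hS.eventually_gt_atTop (N / c'))).exists
    have h4 := h1 M
    rw [div_lt_iff₀ hc'] at h3
    linarith [h2.1]

end Pool.Agent.Q106.ZO
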