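import Pool.Agent.Q106.ZO.Pt
import Pool.Agent.Q120.NC.Basic
import Pool.Agent.Q120.GM.Indep

/-!
# The zero-one law for occurrences in a sequence of disjoint sets
-/

set_option autoImplicit false

namespace Pool.Agent.Q106.ZO

open Finset MeasureTheory ProbabilityTheory Filter Pool.Agent.Q120.GM Pool.Agent.Q106.UR
open scoped Topology

variable {Ω : Type*} [MeasurableSpace Ω] {μ : Measure Ω} [IsProbabilityMeasure μ] {ι : Type*} [DecidableEq ι]
  {p : ι → ℝ} {A : Ω → Set ι}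

theorem eta_tendsto (q : ℝ) {s : ℕ} (hs : 1 ≤ s) : Tendsto (fun m : ℕ => (q / Real.log m) ^ s) atTop (𝓝 0) := by
  have h1 : Tendsto (fun m : ℕ => q / Real.log m) atTop (𝓝 0) :=
    tendsto_const_nhds.div_atTop (Real.tendsto_log_atTop.comp tendsto_natCast_atTop_atTop)
  have h2 := h1.pow s
  rwa [zero_pow (by omega)] at h2

theorem inv_sq (m : ℕ) (hm : 1 ≤ m) : Real.exp (-(2 * Real.log m)) ≤ 4 / ((m : ℝ) + 1) ^ 2 := by
  have hm0 : (1 : ℝ) ≤ m := by exact_mod_cast hm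
  have h1 : Real.exp (-(2 * Real.log m)) = 1 / (m : ℝ) ^ 2 := by
    rw [Real.exp_neg, show 2 * Real.log m = ((2 : ℕ) : ℝ) * Real.log m by push_cast; ring, Real.exp_nat_mul,
      Real.exp_log (by linarith), one_div]
  rw [h1, div_le_div_iff₀ (by positivity) (by positivity)]
  nlinarith

/-- **Two-sided bounds.** -/
theorem pw_one (hA : IsModel μ p A) {K q : ℝ} (hK : 0 ≤ K) (hq : 0 ≤ q) (r : ℕ) :
    ∃ c C C' : ℝ, 0 < c ∧ 0 < C ∧ 0 ≤ C' ∧ ∃ M₀ : ℕ, ∀ (m : ℕ) (J : Finset ℕ) (T : ℕ → Finset ι), M₀ ≤ m →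
      Sp p J T K ((q / Real.log m) ^ 1) →
      μ.real (few A J T r) ≤ C * ps r (mn p J T) + C' / ((m : ℝ) + 1) ^ 2 ∧
      c * ps r (mn p J T) ≤ μ.real (few A J T r) + C' / ((m : ℝ) + 1) ^ 2 := by
  obtain ⟨κ, hκ⟩ : ∃ κ, κ = Bs K r * (2 ^ r * r.factorial) * Real.exp (3 * K * q) := ⟨_, rfl⟩
  have hκ0 : 0 ≤ κ := by
    have := Bs_nonneg hK r
    rw [hκ]
    positivity
  obtain ⟨C₁, hC₁⟩ : ∃ C₁, C₁ = 4 * (Cu K r * (12 ^ r * r.factorial * Real.exp (1 / 12))) := ⟨_, rfl⟩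
  obtain ⟨C₂, hC₂⟩ : ∃ C₂, C₂ = 4 * (((r : ℝ) + 1) * (12 ^ r * r.factorial * Real.exp (1 / 12))) := ⟨_, rfl⟩
  have hC₁0 : 0 ≤ C₁ := by
    have := Cu_pos K r
    rw [hC₁]
    positivity
  have hC₂0 : 0 ≤ C₂ := by rw [hC₂]; positivity
  obtain ⟨c, hc⟩ : ∃ c, c = Real.exp (-(6 * q)) / 2 := ⟨_, rfl⟩
  have hc0 : 0 < c := by rw [hc]; positivity
  have hc1 : c ≤ 1 := by
    rw [hc]
    have : Real.exp (-(6 * q)) ≤ 1 := Real.exp_le_one_iff.2 (by linarith)
    linarith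
  have hη := eta_tendsto q (le_refl 1)
  have h1 : ∀ᶠ m : ℕ in atTop, (q / Real.log m) ^ 1 ≤ 1 / 2 := hη.eventually_le_const (by norm_num)
  have h2 : ∀ᶠ m : ℕ in atTop, (q / Real.log m) ^ 1 < 1 / (12 * (K + 1)) := hη.eventually_lt_const (by positivity)
  have h3 : ∀ᶠ m : ℕ in atTop, (q / Real.log m) ^ 1 < c / (κ + 1) := hη.eventually_lt_const (by positivity)
  obtain ⟨M₀, hM₀⟩ := eventually_atTop.1 (h1.and (h2.and (h3.and (eventually_ge_atTop 3))))
  refine ⟨c, Real.exp (3 * K * q) + κ, C₁ + C₂, hc0, by positivity, by positivity, M₀, ?_⟩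
  intro m J T hm hS
  obtain ⟨g1, g2, g3, g4⟩ := hM₀ m hm
  have hm3 : (3 : ℝ) ≤ m := by exact_mod_cast g4
  have hl : 0 < Real.log m := Real.log_pos (by linarith)
  obtain ⟨η, hηd⟩ : ∃ η, η = (q / Real.log m) ^ 1 := ⟨_, rfl⟩
  have hηe : η * Real.log m = q := by
    rw [hηd, pow_one]
    field_simp
  rw [← hηd] at g1 g2 g3 hS
  have hη0 : 0 ≤ η := by rw [hηd]; positivity
  have hE := mn_nonneg hA J T
  have hps := ps_nonneg hE r
  have hfr : (0 : ℝ) ≤ (C₁ + C₂) / ((m : ℝ) + 1) ^ 2 := by positivity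
  by_cases hE3 : 3 * Real.log m ≤ mn p J T
  · have hKη : K * η ≤ 1 / 12 := by
      rw [lt_div_iff₀ (by positivity)] at g2
      nlinarith
    obtain ⟨h4, h5⟩ := pt_large hA hη0 hKη hS hE3 hl.le r
    have h6 := inv_sq m (by omega)
    have h7 : μ.real (few A J T r) ≤ C₁ / ((m : ℝ) + 1) ^ 2 := by
      refine h4.trans ((mul_le_mul_of_nonneg_left h6 ?_).trans (le_of_eq ?_))
      · have := Cu_pos K r
        positivity
      · rw [hC₁]
        ring
    have h8 : ps r (mn p J T) ≤ C₂ / ((m : ℝ) + 1) ^ 2 := by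
      refine h5.trans ((mul_le_mul_of_nonneg_left h6 (by positivity)).trans (le_of_eq ?_))
      rw [hC₂]
      ring
    have h9 : (0 : ℝ) ≤ C₁ / ((m : ℝ) + 1) ^ 2 := by positivity
    have h10 : (0 : ℝ) ≤ C₂ / ((m : ℝ) + 1) ^ 2 := by positivity
    rw [add_div]
    constructor
    · have : 0 ≤ (Real.exp (3 * K * q) + κ) * ps r (mn p J T) := by positivity
      linarith
    · have h11 : c * ps r (mn p J T) ≤ ps r (mn p J T) := by nlinarith
      have : 0 ≤ μ.real (few A J T r) := measureReal_nonneg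
      linarith
  · push Not at hE3
    have hηE : η * mn p J T ≤ 3 * q := by nlinarith
    have hD : K * η * mn p J T ≤ 3 * K * q := by nlinarith
    obtain ⟨h4, h5⟩ := pt_small hA hK hη0 g1 hS hD (show 2 * η * mn p J T ≤ 6 * q by linarith) r
    rw [← hκ] at h4 h5
    constructor
    · have h6 : κ * η ≤ κ := by nlinarith
      have h7 := mul_le_mul_of_nonneg_right (add_le_add (le_refl (Real.exp (3 * K * q))) h6) hps
      linarith
    · have h6 : κ * η ≤ c := by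
        rw [lt_div_iff₀ (by positivity)] at g3
        nlinarith
      have h7 : c ≤ Real.exp (-(6 * q)) - κ * η := by
        have : Real.exp (-(6 * q)) = 2 * c := by rw [hc]; ring
        linarith
      have h8 := mul_le_mul_of_nonneg_right h7 hps
      linarith

/-- **Asymptotic equality.** -/
theorem pw_two (hA : IsModel μ p A) {K q : ℝ} (hK : 0 ≤ K) (hq : 0 ≤ q) (r : ℕ) {δ : ℝ} (hδ : 0 < δ) :
    ∃ C' : ℝ, 0 ≤ C' ∧ ∃ M₀ : ℕ, ∀ (m : ℕ) (J : Finset ℕ) (T : ℕ → Finset ι), M₀ ≤ m →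
      Sp p J T K ((q / Real.log m) ^ 2) →
      |μ.real (few A J T r) - ps r (mn p J T)| ≤ δ * ps r (mn p J T) + C' / ((m : ℝ) + 1) ^ 2 := by
  obtain ⟨κ, hκ⟩ : ∃ κ, κ = Bs K r * (2 ^ r * r.factorial) * Real.exp 1 := ⟨_, rfl⟩
  have hκ0 : 0 ≤ κ := by
    have := Bs_nonneg hK r
    rw [hκ]
    positivity
  obtain ⟨C₁, hC₁⟩ : ∃ C₁, C₁ = 4 * (Cu K r * (12 ^ r * r.factorial * Real.exp (1 / 12))) := ⟨_, rfl⟩
  obtain ⟨C₂, hC₂⟩ : ∃ C₂, C₂ = 4 * (((r : ℝ) + 1) * (12 ^ r * r.factorial * Real.exp (1 / 12))) := ⟨_, rfl⟩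
  have hC₁0 : 0 ≤ C₁ := by
    have := Cu_pos K r
    rw [hC₁]
    positivity
  have hC₂0 : 0 ≤ C₂ := by rw [hC₂]; positivity
  -- the small parameter
  obtain ⟨θ, hθ⟩ : ∃ θ : ℝ, θ = min (1 : ℝ) (δ / 4) := ⟨_, rfl⟩
  have hθ0 : 0 < θ := by rw [hθ]; positivity
  have hθ1 : θ ≤ 1 := by rw [hθ]; exact min_le_left _ _
  have hθδ : θ ≤ δ / 4 := by rw [hθ]; exact min_le_right _ _
  have hη := eta_tendsto q (show 1 ≤ 2 by norm_num)
  have hη1 := eta_tendsto q (le_refl 1)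
  have h1 : ∀ᶠ m : ℕ in atTop, (q / Real.log m) ^ 2 ≤ 1 / 2 := hη.eventually_le_const (by norm_num)
  have h2 : ∀ᶠ m : ℕ in atTop, (q / Real.log m) ^ 2 < 1 / (12 * (K + 1)) := hη.eventually_lt_const (by positivity)
  have h3 : ∀ᶠ m : ℕ in atTop, (q / Real.log m) ^ 2 < θ / (κ + 1) := hη.eventually_lt_const (by positivity)
  have h4 : ∀ᶠ m : ℕ in atTop, (q / Real.log m) ^ 1 < θ / (6 * (q + 1) * (K + 1)) := hη1.eventually_lt_const (by positivity)
  obtain ⟨M₀, hM₀⟩ := eventually_atTop.1 (h1.and (h2.and (h3.and (h4.and (eventually_ge_atTop 3)))))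
  refine ⟨C₁ + C₂, by positivity, M₀, ?_⟩
  intro m J T hm hS
  obtain ⟨g1, g2, g3, g4, g5⟩ := hM₀ m hm
  have hm3 : (3 : ℝ) ≤ m := by exact_mod_cast g5
  have hl : 0 < Real.log m := Real.log_pos (by linarith)
  obtain ⟨η, hηd⟩ : ∃ η, η = (q / Real.log m) ^ 2 := ⟨_, rfl⟩
  have hηe : η * Real.log m = q * (q / Real.log m) ^ 1 := by
    rw [hηd, pow_one]
    field_simp
  rw [← hηd] at g1 g2 g3 hS
  have hη0 : 0 ≤ η := by rw [hηd]; positivity
  have hE := mn_nonneg hA J T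
  have hps := ps_nonneg hE r
  by_cases hE3 : 3 * Real.log m ≤ mn p J T
  · have hKη : K * η ≤ 1 / 12 := by
      rw [lt_div_iff₀ (by positivity)] at g2
      nlinarith
    obtain ⟨h4, h5⟩ := pt_large hA hη0 hKη hS hE3 hl.le r
    have h6 := inv_sq m (by omega)
    have h7 : μ.real (few A J T r) ≤ C₁ / ((m : ℝ) + 1) ^ 2 := by
      refine h4.trans ((mul_le_mul_of_nonneg_left h6 ?_).trans (le_of_eq ?_))
      · have := Cu_pos K r
        positivity
      · rw [hC₁]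
        ring
    have h8 : ps r (mn p J T) ≤ C₂ / ((m : ℝ) + 1) ^ 2 := by
      refine h5.trans ((mul_le_mul_of_nonneg_left h6 (by positivity)).trans (le_of_eq ?_))
      rw [hC₂]
      ring
    have h9 : 0 ≤ μ.real (few A J T r) := measureReal_nonneg
    have h10 : 0 ≤ δ * ps r (mn p J T) := by positivity
    have h11 : (0 : ℝ) ≤ C₁ / ((m : ℝ) + 1) ^ 2 := by positivity
    have h12 : (0 : ℝ) ≤ C₂ / ((m : ℝ) + 1) ^ 2 := by positivity
    rw [add_div, abs_le]
    constructor <;> linarith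
  · push Not at hE3
    have hηE : η * mn p J T ≤ θ / (2 * (K + 1)) := by
      have e1 : η * mn p J T ≤ η * (3 * Real.log m) := mul_le_mul_of_nonneg_left hE3.le hη0
      have e2 : η * (3 * Real.log m) = 3 * (q * (q / Real.log m) ^ 1) := by rw [← hηe]; ring
      have e3 : q * (q / Real.log m) ^ 1 ≤ (q + 1) * (θ / (6 * (q + 1) * (K + 1))) :=
        mul_le_mul (by linarith) g4.le (by positivity) (by linarith)
      have e4 : (q + 1) * (θ / (6 * (q + 1) * (K + 1))) = θ / (6 * (K + 1)) := by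
        field_simp
      have e5 : 3 * (θ / (6 * (K + 1))) = θ / (2 * (K + 1)) := by
        field_simp
        norm_num
      linarith
    have hηE' : η * mn p J T * (2 * (K + 1)) ≤ θ := by rwa [le_div_iff₀ (by positivity)] at hηE
    have hηE0 : 0 ≤ η * mn p J T := by positivity
    have hD : K * η * mn p J T ≤ θ / 2 := by nlinarith
    have hδ' : 2 * η * mn p J T ≤ θ := by nlinarith
    obtain ⟨h4, h5⟩ := pt_small hA hK hη0 g1 hS hD hδ' r
    have h6 : Bs K r * (2 ^ r * r.factorial) * Real.exp (θ / 2) * η ≤ θ := by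
      have e1 : Real.exp (θ / 2) ≤ Real.exp 1 := Real.exp_le_exp.2 (by linarith)
      have hB := Bs_nonneg hK r
      have e2 : Bs K r * (2 ^ r * r.factorial) * Real.exp (θ / 2) * η ≤ κ * η := by
        rw [hκ]
        exact mul_le_mul_of_nonneg_right (mul_le_mul_of_nonneg_left e1 (by positivity)) hη0
      rw [lt_div_iff₀ (by positivity)] at g3
      nlinarith
    have h7 : Real.exp (θ / 2) ≤ 1 + θ := by
      have e1 := Real.exp_bound' (x := θ / 2) (by positivity) (by linarith) (n := 1) (by norm_num)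
      simp only [range_one, sum_singleton, pow_zero, Nat.factorial_zero, Nat.cast_one, div_one, pow_one,
        Nat.factorial_one] at e1
      push_cast at e1
      linarith
    have h8 : 1 - θ ≤ Real.exp (-θ) := by
      have := Real.add_one_le_exp (-θ)
      linarith
    have hfr : (0 : ℝ) ≤ (C₁ + C₂) / ((m : ℝ) + 1) ^ 2 := by positivity
    obtain ⟨W, hW⟩ : ∃ W, W = Bs K r * (2 ^ r * r.factorial) * Real.exp (θ / 2) * η := ⟨_, rfl⟩
    rw [← hW] at h4 h5 h6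
    have h9 := mul_le_mul_of_nonneg_right (show Real.exp (θ / 2) + W ≤ 1 + δ by linarith) hps
    have h10 := mul_le_mul_of_nonneg_right (show 1 - δ ≤ Real.exp (-θ) - W by linarith) hps
    rw [abs_le]
    constructor <;> linarith

end Pool.Agent.Q106.ZO
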